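import Mathlib

/-!
Representations of the dual of a normal subgroup lattice by permuting equivalence relations:
translations on the values at a central involution.
-/

set_option autoImplicit false

namespace Pool.Agent.H935Z.LL

open Subgroup

universe u

/-- An order reversing representation of the normal subgroups of `K` by permuting equivalence
relations on `X`, the trivial subgroup giving the full relation. -/
structure Rep (K : Type) (X : Type u) [Group K] where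
  r : Subgroup K → X → X → Prop
  refl : ∀ N x, r N x x
  symm : ∀ {N x y}, r N x y → r N y x
  trans : ∀ {N x y z}, r N x y → r N y z → r N x z
  anti : ∀ {N M : Subgroup K} [N.Normal] [M.Normal] {x y}, N ≤ M → r M x y → r N x y
  join : ∀ {N M : Subgroup K} [N.Normal] [M.Normal] {x y}, r N x y → r M x y → r (N ⊔ M) x y
  amal : ∀ {N M : Subgroup K} [N.Normal] [M.Normal] {x y}, r (N ⊓ M) x y →
    ∃ z, r N x z ∧ r M z y
  bot : ∀ x y, r ⊥ x y

variable {K : Type} {X : Type u} [Group K]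

/-- Normal closure of one element. -/
def n (g : K) : Subgroup K := normalClosure {g}

instance (g : K) : (n g).Normal := normalClosure_normal

theorem mem_n (g : K) : g ∈ n g := subset_normalClosure rfl

theorem n_le {g : K} {N : Subgroup K} [N.Normal] (h : g ∈ N) : n g ≤ N :=
  normalClosure_le_normal (by rintro _ rfl; exact h)

/-- `g` is a central element of exponent two modulo `C`. -/
def A (C : Subgroup K) (g : K) : Prop := g * g ∈ C ∧ ∀ h, g⁻¹ * (h * g * h⁻¹) ∈ C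

theorem A.mono {C C' : Subgroup K} {g : K} (h : A C g) (hc : C ≤ C') : A C' g :=
  ⟨hc h.1, fun k => hc (h.2 k)⟩

theorem mem_S {C : Subgroup K} [hC : C.Normal] {g : K} (hA : A C g) {h : K} (hh : h ∈ C ⊔ n g) :
    h ∈ C ∨ g⁻¹ * h ∈ C := by
  let S : Subgroup K :=
    { carrier := {h | h ∈ C ∨ g⁻¹ * h ∈ C}
      one_mem' := Or.inl C.one_mem
      mul_mem' := by
        rintro a b (ha | ha) (hb | hb)
        · exact Or.inl (C.mul_mem ha hb)
        · right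
          have : g⁻¹ * (a * b) = (g⁻¹ * a * g⁻¹⁻¹) * (g⁻¹ * b) := by group
          rw [this]
          exact C.mul_mem (hC.conj_mem a ha _) hb
        · right
          rw [← mul_assoc]
          exact C.mul_mem ha hb
        · left
          have : a * b = (g * (g⁻¹ * a) * g⁻¹) * (g * g) * (g⁻¹ * b) := by group
          rw [this]
          exact C.mul_mem (C.mul_mem (hC.conj_mem _ ha _) hA.1) hb
      inv_mem' := by
        rintro a (ha | ha)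
        · exact Or.inl (C.inv_mem ha)
        · right
          have : g⁻¹ * a⁻¹ = (g⁻¹ * (g⁻¹ * a)⁻¹ * g⁻¹⁻¹) * (g * g)⁻¹ := by group
          rw [this]
          exact C.mul_mem (hC.conj_mem _ (C.inv_mem ha) _) (C.inv_mem hA.1) }
  have hS : S.Normal := ⟨by
    rintro a (ha | ha) k
    · exact Or.inl (hC.conj_mem a ha k)
    · right
      have : g⁻¹ * (k * a * k⁻¹) = (g⁻¹ * (k * g * k⁻¹)) * (k * (g⁻¹ * a) * k⁻¹) := by group
      rw [this]
      exact C.mul_mem (hA.2 k) (hC.conj_mem _ ha k)⟩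
  have : C ⊔ n g ≤ S := sup_le (fun x hx => Or.inl hx) (n_le (Or.inr (by simp)))
  exact this hh

theorem S_inf_S {C : Subgroup K} [C.Normal] {g g' : K} (hA : A C g) (hA' : A C g')
    (h : g⁻¹ * g' ∉ C) : (C ⊔ n g) ⊓ (C ⊔ n g') ≤ C := by
  rintro x ⟨h1, h2⟩
  rcases mem_S hA h1 with h1 | h1
  · exact h1
  rcases mem_S hA' h2 with h2 | h2
  · exact h2
  exfalso
  apply h
  have : g⁻¹ * g' = (g⁻¹ * x) * (g'⁻¹ * x)⁻¹ := by group
  rw [this]
  exact C.mul_mem h1 (C.inv_mem h2)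

/-- Central involution (or the identity). -/
def CI (t : K) : Prop := t * t = 1 ∧ ∀ h, h * t = t * h

theorem CI.A {t : K} (ht : CI t) (C : Subgroup K) : A C t :=
  ⟨by rw [ht.1]; exact C.one_mem, fun h => by
    rw [ht.2 h]; simp⟩

theorem A.mul_CI {C : Subgroup K} {g t : K} (hg : A C g) (ht : CI t) : A C (g * t) := by
  refine ⟨?_, fun h => ?_⟩
  · have : g * t * (g * t) = g * g := by
      calc g * t * (g * t) = g * (t * g) * t := by group
        _ = g * (g * t) * t := by rw [ht.2 g]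
        _ = g * g * (t * t) := by group
        _ = g * g := by rw [ht.1, mul_one]
    rw [this]; exact hg.1
  · have : (g * t)⁻¹ * (h * (g * t) * h⁻¹) = g⁻¹ * (h * g * h⁻¹) := by
      calc (g * t)⁻¹ * (h * (g * t) * h⁻¹) = t⁻¹ * ((g⁻¹ * h * g) * t) * h⁻¹ := by group
        _ = t⁻¹ * (t * (g⁻¹ * h * g)) * h⁻¹ := by rw [ht.2]
        _ = _ := by group
    rw [this]; exact hg.2 h

theorem A.mul {C : Subgroup K} [hC : C.Normal] {g g' : K} (hg : A C g) (hg' : A C g') :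
    A C (g * g') := by
  refine ⟨?_, fun h => ?_⟩
  · have : g * g' * (g * g') = (g * g) * (g⁻¹ * (g' * g * g'⁻¹)) * (g' * g') := by group
    rw [this]
    exact C.mul_mem (C.mul_mem hg.1 (hg.2 _)) hg'.1
  · have : (g * g')⁻¹ * (h * (g * g') * h⁻¹) =
        (g'⁻¹ * (g⁻¹ * (h * g * h⁻¹)) * g'⁻¹⁻¹) * (g'⁻¹ * (h * g' * h⁻¹)) := by group
    rw [this]
    exact C.mul_mem (hC.conj_mem _ (hg.2 h) _) (hg'.2 h)

theorem CI.mem_n {t h : K} (ht : CI t) (hh : h ∈ n t) : h = 1 ∨ h = t := by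
  rcases mem_S (ht.A ⊥) (show h ∈ ⊥ ⊔ n t by simpa using hh) with h1 | h1
  · exact Or.inl (mem_bot.1 h1)
  · right
    rw [mem_bot, inv_mul_eq_one] at h1
    exact h1.symm

theorem CI.inf_le {t : K} (ht : CI t) {N : Subgroup K} (h : t ∉ N) : N ⊓ n t ≤ ⊥ := by
  rintro x ⟨h1, h2⟩
  rcases ht.mem_n h2 with rfl | rfl
  · exact one_mem _
  · exact absurd h1 h

theorem L0 {H0 N C : Subgroup K} [C.Normal] {y k : K} (hy : y ∉ H0) (hN : N ≤ H0) (hC : C ≤ H0)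
    (hk : k ∈ H0) (hA : A C (k * y)) : N ⊓ (C ⊔ n (k * y)) ≤ C := by
  rintro x ⟨h1, h2⟩
  rcases mem_S hA h2 with h2 | h2
  · exact h2
  exfalso
  apply hy
  have : y = k⁻¹ * x * ((k * y)⁻¹ * x)⁻¹ := by group
  rw [this]
  exact H0.mul_mem (H0.mul_mem (H0.inv_mem hk) (hN h1)) (H0.inv_mem (hC h2))

namespace Rep

variable (ρ : Rep K X)

theorem of_mem {N M : Subgroup K} [N.Normal] [M.Normal] {k : K} (hk : k ∈ N ⊔ M) {a b : X}
    (h1 : ρ.r N a b) (h2 : ρ.r M a b) : ρ.r (n k) a b :=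
  ρ.anti (n_le hk) (ρ.join h1 h2)

theorem of_mem1 {N : Subgroup K} [N.Normal] {k : K} (hk : k ∈ N) {a b : X}
    (h1 : ρ.r N a b) : ρ.r (n k) a b :=
  ρ.anti (n_le hk) h1

theorem amal' {N M C : Subgroup K} [N.Normal] [M.Normal] [C.Normal] (h : N ⊓ M ≤ C) {a b : X}
    (hab : ρ.r C a b) : ∃ z, ρ.r N a z ∧ ρ.r M z b :=
  ρ.amal (ρ.anti h hab)

variable (y : K)

/-- The setoid of values at `y`. -/
def sY : Setoid X := ⟨ρ.r (n y), ⟨ρ.refl _, ρ.symm, ρ.trans⟩⟩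

/-- Values at `y`. -/
def P : Type u := Quotient (ρ.sY y)

def cl (x : X) : ρ.P y := Quotient.mk (ρ.sY y) x

theorem mk_eq {a b : X} : ρ.cl y a = ρ.cl y b ↔ ρ.r (n y) a b := Quotient.eq

theorem mk_surj (γ : ρ.P y) : ∃ x, ρ.cl y x = γ := Quotient.exists_rep γ

def Tr (g : K) (a b p q : X) : Prop := ρ.r (n g) p a ∧ ρ.r (n g) q b ∧ ρ.r (n (g * y)) p q

open Classical in
/-- The translation attached to `g` and the points `a`, `b`. -/
noncomputable def E (g : K) (a b : X) : Function.End (ρ.P y) := fun γ =>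
  if h : ∃ q, ∃ p, ρ.cl y p = γ ∧ ρ.Tr y g a b p q then ρ.cl y h.choose else γ

theorem E_spec {g : K} {a b p q : X} (h : ρ.Tr y g a b p q) :
    ρ.E y g a b (ρ.cl y p) = ρ.cl y q := by
  have hex : ∃ q, ∃ p', ρ.cl y p' = ρ.cl y p ∧ ρ.Tr y g a b p' q := ⟨q, p, rfl, h⟩
  unfold E
  rw [dif_pos hex]
  obtain ⟨p', e, h1, h2, h3⟩ := hex.choose_spec
  rw [mk_eq] at e ⊢
  have f1 : ρ.r (n (g * y)) p' p :=
    ρ.of_mem (mul_mem_sup (mem_n g) (mem_n y)) (ρ.trans h1 (ρ.symm h.1)) e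
  have f2 : ρ.r (n (g * y)) hex.choose q := ρ.trans (ρ.symm h3) (ρ.trans f1 h.2.2)
  have f3 : ρ.r (n g) hex.choose q := ρ.trans h2 (ρ.symm h.2.1)
  have : y ∈ n g ⊔ n (g * y) := by
    have := mul_mem_sup ((n g).inv_mem (mem_n g)) (mem_n (g * y))
    simpa using this
  exact ρ.of_mem this f3 f2

/-- The subgroup on which two points must agree for the translation to be defined. -/
def c (g : K) : Subgroup K := n g ⊓ n (g * y)

instance (g : K) : (c y g).Normal := by unfold c; infer_instance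

variable {y} {H0 : Subgroup K} [H0.Normal]

theorem ex (hy : CI y) (hy0 : y ∉ H0) {g : K} (hg : g ∈ H0) {a b : X} (hab : ρ.r (c y g) a b)
    (γ : ρ.P y) : ∃ p q, ρ.cl y p = γ ∧ ρ.Tr y g a b p q := by
  obtain ⟨x, rfl⟩ := ρ.mk_surj y γ
  obtain ⟨p, h1, h2⟩ := ρ.amal' (hy.inf_le (N := n g) (fun h => hy0 (n_le hg h))) (ρ.bot a x)
  have h3 : ρ.r (c y g) b p := ρ.trans (ρ.symm hab) (ρ.anti inf_le_left h1)
  obtain ⟨q, h4, h5⟩ := ρ.amal h3
  exact ⟨p, q, (ρ.mk_eq y).2 h2, ρ.symm h1, ρ.symm h4, ρ.symm h5⟩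

omit [H0.Normal] in
theorem c_le (hy : CI y) (hy0 : y ∉ H0) {C : Subgroup K} [C.Normal] (hC : C ≤ H0) {g : K}
    (hA : A C g) (hg : g ∈ H0) (hn : n g ≤ H0) : c y g ≤ C :=
  (inf_le_inf le_rfl le_sup_right).trans (L0 hy0 hn hC hg (hA.mul_CI hy))

theorem A_c (hy : CI y) (g : K) : A (c y g) g := by
  have h1 : A (n g) g := ⟨(n g).mul_mem (mem_n g) (mem_n g), fun h =>
    (n g).mul_mem ((n g).inv_mem (mem_n g)) (Normal.conj_mem inferInstance _ (mem_n g) h)⟩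
  have h2 : A (n (g * y)) (g * y) := ⟨(n _).mul_mem (mem_n _) (mem_n _), fun h =>
    (n _).mul_mem ((n _).inv_mem (mem_n _)) (Normal.conj_mem inferInstance _ (mem_n _) h)⟩
  have h3 := h2.mul_CI hy
  rw [mul_assoc, hy.1, mul_one] at h3
  exact ⟨⟨h1.1, h3.1⟩, fun h => ⟨h1.2 h, h3.2 h⟩⟩

theorem E_cocycle (hy : CI y) (hy0 : y ∉ H0) {g : K} (hg : g ∈ H0) {a b d : X}
    (hab : ρ.r (c y g) a b) (hbd : ρ.r (c y g) b d) :
    ρ.E y g b d * ρ.E y g a b = ρ.E y g a d := by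
  funext γ
  obtain ⟨p, q, rfl, h⟩ := ρ.ex hy hy0 hg hab γ
  have h3 : ρ.r (c y g) d q := ρ.trans (ρ.symm hbd) (ρ.anti inf_le_left (ρ.symm h.2.1))
  obtain ⟨s, h4, h5⟩ := ρ.amal h3
  change ρ.E y g b d (ρ.E y g a b _) = _
  rw [ρ.E_spec y h, ρ.E_spec y (q := s) ⟨h.2.1, ρ.symm h4, ρ.symm h5⟩,
    ρ.E_spec y (q := s) ⟨h.1, ρ.symm h4, ρ.trans h.2.2 (ρ.symm h5)⟩]

theorem E_one (hy : CI y) (hy0 : y ∉ H0) {g : K} (hg : g ∈ H0) {a b : X}
    (hab : ρ.r (n g) a b) : ρ.E y g a b = 1 := by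
  funext γ
  obtain ⟨p, q, rfl, h⟩ := ρ.ex hy hy0 hg (ρ.anti inf_le_left hab) γ
  rw [ρ.E_spec y (q := p) ⟨h.1, ρ.trans h.1 hab, ρ.refl _ _⟩]
  rfl

theorem of_E_one (hy : CI y) (hy0 : y ∉ H0) {g : K} (hg : g ∈ H0) {a b : X}
    (hab : ρ.r (c y g) a b) (h : ρ.E y g a b = 1) : ρ.r (n g) a b := by
  obtain ⟨p, q, -, ht⟩ := ρ.ex hy hy0 hg hab (ρ.cl y a)
  have h1 := ρ.E_spec y ht
  rw [h] at h1
  have h2 : ρ.r (n y) p q := (ρ.mk_eq y).1 h1
  have : g ∈ n (g * y) ⊔ n y := by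
    have := mul_mem_sup (mem_n (g * y)) ((n y).inv_mem (mem_n y))
    simpa using this
  exact ρ.trans (ρ.symm ht.1) (ρ.trans (ρ.of_mem this ht.2.2 h2) ht.2.1)

theorem E_congr (hy : CI y) (hy0 : y ∉ H0) {g : K} (hg : g ∈ H0) {a b a' b' : X}
    (hab : ρ.r (c y g) a b) (ha : ρ.r (n g) a a') (hb : ρ.r (n g) b b') :
    ρ.E y g a b = ρ.E y g a' b' := by
  funext γ
  obtain ⟨p, q, rfl, h⟩ := ρ.ex hy hy0 hg hab γ
  rw [ρ.E_spec y h, ρ.E_spec y (q := q) ⟨ρ.trans h.1 ha, ρ.trans h.2.1 hb, h.2.2⟩]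

/-- Additivity of translations. -/
theorem E_add (hy : CI y) (hy0 : y ∉ H0) {C : Subgroup K} [C.Normal] (hC : C ≤ H0) {g g' : K}
    (hg : g ∈ H0) (hg' : g' ∈ H0) (hA : A C g) (hA' : A C g') (hi : g⁻¹ * g' ∉ C) {a b : X}
    (hab : ρ.r C a b) : ρ.E y (g * g') a b = ρ.E y g a b * ρ.E y g' a b := by
  funext γ
  obtain ⟨x, rfl⟩ := ρ.mk_surj y γ
  have hS1 : C ⊔ n g ≤ H0 := sup_le hC (n_le hg)
  have hS1' : C ⊔ n g' ≤ H0 := sup_le hC (n_le hg')
  have hS2 : (C ⊔ n g) ⊔ n g' ≤ H0 := sup_le hS1 (n_le hg')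
  obtain ⟨p, h1, h2⟩ := ρ.amal' (hy.inf_le (N := (C ⊔ n g) ⊔ n g') (fun h => hy0 (hS2 h)))
    (ρ.bot a x)
  have hbp : ρ.r C b p := ρ.trans (ρ.symm hab) (ρ.anti (le_sup_left.trans le_sup_left) h1)
  have m1 : (C ⊔ n g') ⊓ ((C ⊔ n g) ⊔ n (g' * y)) ≤ C := by
    refine le_trans (le_inf ?_ inf_le_left) (S_inf_S hA hA' hi)
    exact L0 hy0 hS1' hS1 hg' ((hA'.mono le_sup_left).mul_CI hy)
  obtain ⟨q, h3, h4⟩ := ρ.amal' m1 hbp
  have m2 : ((C ⊔ n g) ⊔ n g') ⊓ (C ⊔ n (g * g' * y)) ≤ C :=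
    L0 hy0 hS2 hC (H0.mul_mem hg hg') ((hA.mul hA').mul_CI hy)
  obtain ⟨s, h5, h6⟩ := ρ.amal' m2 hbp
  have mg : g ∈ (C ⊔ n g) ⊔ n g' := mem_sup_left (mem_sup_right (mem_n g))
  have mg' : g' ∈ (C ⊔ n g) ⊔ n g' := mem_sup_right (mem_n g')
  have t1 : ρ.Tr y g' a b p q := ⟨ρ.symm (ρ.of_mem1 mg' h1),
    ρ.symm (ρ.anti le_sup_right h3), ρ.symm (ρ.anti le_sup_right h4)⟩
  have t3 : ρ.Tr y (g * g') a b p s := ⟨ρ.symm (ρ.of_mem1 (mul_mem mg mg') h1),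
    ρ.symm (ρ.of_mem1 (mul_mem mg mg') h5), ρ.symm (ρ.anti le_sup_right h6)⟩
  have t2 : ρ.Tr y g a b q s := by
    refine ⟨ρ.trans (ρ.anti (le_sup_right.trans le_sup_left) h4) (ρ.symm (ρ.of_mem1 mg h1)),
      ρ.symm (ρ.of_mem1 mg h5), ?_⟩
    have u1 : ρ.r (n (g * g' * y)) q s := by
      have : g * g' * y ∈ (C ⊔ n g) ⊔ n (g' * y) := by
        rw [mul_assoc]
        exact mul_mem_sup (mem_sup_right (mem_n g)) (mem_n _)
      exact ρ.trans (ρ.of_mem1 this h4) t3.2.2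
    have u2 : ρ.r (n g') q s := ρ.trans t1.2.1 (ρ.of_mem1 mg' h5)
    have : g * y ∈ n (g * g' * y) ⊔ n g' := by
      have e : g * y = (g * g' * y) * g'⁻¹ := by
        rw [mul_assoc g g' y, hy.2 g']; group
      rw [e]
      exact mul_mem_sup (mem_n _) ((n g').inv_mem (mem_n g'))
    exact ρ.of_mem this u1 u2
  rw [← (ρ.mk_eq y).2 h2]
  change _ = ρ.E y g a b (ρ.E y g' a b _)
  rw [ρ.E_spec y t3, ρ.E_spec y t1, ρ.E_spec y t2]

theorem c_CI (hy : CI y) (hy0 : y ∉ H0) {t : K} (ht : CI t) (ht0 : t ∈ H0) (a b : X) :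
    ρ.r (c y t) a b :=
  ρ.anti (c_le hy hy0 bot_le (ht.A ⊥) ht0 (n_le ht0)) (ρ.bot a b)

theorem E_comm (hy : CI y) (hy0 : y ∉ H0) {g t : K} (hg : g ∈ H0) (ht : CI t) (ht0 : t ∈ H0)
    (hgt : t ∉ n g) {a b : X} (hab : ρ.r (c y g) a b) (a' b' : X) :
    ρ.E y g a b * ρ.E y t a' b' = ρ.E y t a' b' * ρ.E y g a b := by
  obtain ⟨p, h1, h2⟩ := ρ.amal' (ht.inf_le hgt) (ρ.bot a a')
  obtain ⟨q, h3, h4⟩ := ρ.amal' (ht.inf_le hgt) (ρ.bot b b')
  have hpq : ρ.r (c y g) p q :=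
    ρ.trans (ρ.symm (ρ.anti inf_le_left h1)) (ρ.trans hab (ρ.anti inf_le_left h3))
  rw [ρ.E_congr hy hy0 hg hab h1 h3,
    ← ρ.E_congr hy hy0 ht0 (ρ.c_CI hy hy0 ht ht0 p q) h2 h4]
  have hc : c y g ≤ H0 := inf_le_left.trans (n_le hg)
  rw [← ρ.E_add hy hy0 hc hg ht0 (A_c hy g) (ht.A _) ?_ hpq,
    ← ρ.E_add hy hy0 hc ht0 hg (ht.A _) (A_c hy g) ?_ hpq, ht.2 g]
  · intro h
    apply hgt
    have := (n g).mul_mem (mem_n g) ((n g).inv_mem h.1)
    simpa using this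
  · intro h
    apply hgt
    have := (n g).mul_mem (mem_n g) h.1
    simpa using this

theorem E_eq (hy : CI y) (hy0 : y ∉ H0) {g t : K} (hg : g ∈ H0) (ht : CI t) (ht0 : t ∈ H0)
    (hgt : t ∉ n g) {a b : X} (hab : ρ.r (c y g) a b) : ∃ d, ρ.E y g a b = ρ.E y t b d := by
  have hc : c y g ≤ H0 := inf_le_left.trans (n_le hg)
  have m : n g ⊓ n (g * t) ≤ c y g :=
    (inf_le_inf le_sup_right le_sup_right).trans
      (S_inf_S (A_c hy g) ((A_c hy g).mul_CI ht) (by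
        intro h
        apply hgt
        simpa using h.1))
  obtain ⟨d, h1, h2⟩ := ρ.amal' m hab
  refine ⟨d, ?_⟩
  have hdb : ρ.r (c y g) d b := ρ.trans (ρ.symm (ρ.anti inf_le_left h1)) hab
  have e1 := ρ.E_add hy hy0 hc hg ht0 (A_c hy g) (ht.A _) (by
    intro h
    apply hgt
    have := (n g).mul_mem (mem_n g) h.1
    simpa using this) hdb
  rw [ρ.E_one hy hy0 (H0.mul_mem hg ht0) h2] at e1
  have e2 := ρ.E_cocycle hy hy0 ht0 (ρ.c_CI hy hy0 ht ht0 b d) (ρ.c_CI hy hy0 ht ht0 d b)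
  rw [ρ.E_one hy hy0 ht0 (ρ.refl _ b)] at e2
  rw [ρ.E_congr hy hy0 hg hab h1 (ρ.refl _ b)]
  calc ρ.E y g d b = ρ.E y g d b * (ρ.E y t d b * ρ.E y t b d) := by rw [e2, mul_one]
    _ = _ := by rw [← mul_assoc, ← e1, one_mul]

/-- The translations form an elementary abelian two-group; packaged additively. -/
theorem package (hy : CI y) (hy0 : y ∉ H0) {u z : K} (hu : CI u) (hu0 : u ∈ H0) (hz : CI z)
    (hz0 : z ∈ H0) (hz1 : z ≠ 1) (hu1 : u ≠ 1) (hzu : z ≠ u) :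
    ∃ (T : Type u) (_ : AddCommMonoid T) (D : K → X → X → T) (pot : K → X → T),
      (∀ t : T, t + t = 0) ∧
      (∀ g ∈ H0, u ∉ n g → ∀ a b, ρ.r (c y g) a b → D g a b = pot g a + pot g b) ∧
      (∀ g ∈ H0, ∀ a b, ρ.r (n g) a b → D g a b = 0) ∧
      (∀ a b, D u a b = 0 → ρ.r (n u) a b) ∧
      (∀ a a' b, ρ.r (n u) a a' → D u a b = D u a' b) ∧
      (∀ (C : Subgroup K) [C.Normal], C ≤ H0 → ∀ g ∈ H0, ∀ g' ∈ H0, A C g → A C g' →
        g⁻¹ * g' ∉ C → u ∉ n g → (u ∉ n g' ∨ g' = u) → u ∉ n (g * g') → ∀ a b, ρ.r C a b →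
        D (g * g') a b = D g a b + D g' a b) := by
  classical
  have hzu' : z ∉ n u := fun h => (hu.mem_n h).elim hz1 hzu
  have huz' : u ∉ n z := fun h => (hz.mem_n h).elim hu1 (fun e => hzu e.symm)
  let S : Set (Function.End (ρ.P y)) := {f | ∃ a b, f = ρ.E y u a b}
  have hcomm : ∀ f ∈ S, ∀ f' ∈ S, f * f' = f' * f := by
    rintro _ ⟨a, b, rfl⟩ _ ⟨a', b', rfl⟩
    obtain ⟨d, e⟩ := ρ.E_eq hy hy0 hu0 hz hz0 hzu' (ρ.c_CI hy hy0 hu hu0 a b)
    rw [e]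
    exact ρ.E_comm hy hy0 hz0 hu hu0 huz' (ρ.c_CI hy hy0 hz hz0 b d) a' b'
  have hinv : ∀ f ∈ S, f * f = 1 := by
    rintro _ ⟨a, b, rfl⟩
    obtain ⟨d, e⟩ := ρ.E_eq hy hy0 hu0 hz hz0 hzu' (ρ.c_CI hy hy0 hu hu0 a b)
    rw [e]
    have hzz : z⁻¹ = z := inv_eq_of_mul_eq_one_right hz.1
    have e1 := ρ.E_add hy hy0 (C := ⊥) bot_le hz0 hu0 (hz.A _) (hu.A _) (by
      rw [mem_bot, inv_mul_eq_one]; exact hzu) (ρ.bot b d)
    have e2 := ρ.E_add hy hy0 (C := ⊥) bot_le hz0 (H0.mul_mem hz0 hu0) (hz.A _)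
      ((hz.A _).mul_CI hu) (by
        rw [mem_bot, ← mul_assoc, inv_mul_cancel, one_mul]; exact hu1) (ρ.bot b d)
    rw [← mul_assoc, hz.1, one_mul, e1, ← mul_assoc] at e2
    have e3 := ρ.E_cocycle hy hy0 hu0 (ρ.c_CI hy hy0 hu hu0 d b) (ρ.c_CI hy hy0 hu hu0 b d)
    rw [ρ.E_one hy hy0 hu0 (ρ.refl _ d)] at e3
    calc ρ.E y z b d * ρ.E y z b d
        = ρ.E y z b d * ρ.E y z b d * (ρ.E y u b d * ρ.E y u d b) := by rw [e3, mul_one]
      _ = (ρ.E y z b d * ρ.E y z b d * ρ.E y u b d) * ρ.E y u d b := by simp only [mul_assoc]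
      _ = 1 := by rw [← e2, e3]
  let M := Submonoid.closure S
  have hM : ∀ f ∈ M, ∀ f' ∈ M, f * f' = f' * f := by
    intro f hf f' hf'
    have h1 : ∀ s ∈ S, Commute s f' := fun s hs =>
      Submonoid.closure_induction (motive := fun x _ => Commute s x) (fun x hx => hcomm s hs x hx)
        (Commute.one_right s) (fun _ _ _ _ h1 h2 => h1.mul_right h2) hf'
    exact Submonoid.closure_induction (motive := fun x _ => Commute x f') h1
      (Commute.one_left f') (fun _ _ _ _ h1 h2 => h1.mul_left h2) hf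
  have hM2 : ∀ f ∈ M, f * f = 1 := by
    intro f hf
    refine Submonoid.closure_induction (motive := fun x _ => x * x = 1) hinv (mul_one 1) ?_ hf
    intro a b ha hb h1 h2
    calc a * b * (a * b) = a * (b * a) * b := by simp only [mul_assoc]
      _ = a * (a * b) * b := by rw [hM b hb a ha]
      _ = (a * a) * (b * b) := by simp only [mul_assoc]
      _ = 1 := by rw [h1, h2, mul_one]
  let _ : CommMonoid M := { (inferInstance : Monoid M) with
    mul_comm := fun a b => Subtype.ext (hM a a.2 b b.2) }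
  have memU : ∀ a b, ρ.E y u a b ∈ M := fun a b => Submonoid.subset_closure ⟨a, b, rfl⟩
  have memG : ∀ g ∈ H0, u ∉ n g → ∀ a b, ρ.r (c y g) a b → ρ.E y g a b ∈ M := by
    intro g hg hgu a b hab
    obtain ⟨d, e⟩ := ρ.E_eq hy hy0 hg hu hu0 hgu hab
    rw [e]; exact memU _ _
  let D : K → X → X → Additive M := fun g a b =>
    if h : ρ.E y g a b ∈ M then Additive.ofMul ⟨_, h⟩ else 0
  have hD : ∀ g a b (h : ρ.E y g a b ∈ M), D g a b = Additive.ofMul ⟨_, h⟩ :=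
    fun g a b h => dif_pos h
  let st : K → Setoid X := fun g => ⟨ρ.r (c y g), ⟨ρ.refl _, ρ.symm, ρ.trans⟩⟩
  let rep : K → X → X := fun g a => (Quotient.mk (st g) a).out
  have hrep : ∀ g a, ρ.r (c y g) (rep g a) a := fun g a => Quotient.mk_out (s := st g) a
  have hrep2 : ∀ g a b, ρ.r (c y g) a b → rep g a = rep g b := fun g a b h => by
    simp only [rep]
    rw [Quotient.sound (s := st g) h]
  refine ⟨Additive M, inferInstance, D, fun g a => D g (rep g a) a, ?_, ?_, ?_, ?_, ?_, ?_⟩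
  · intro t
    exact Subtype.ext (hM2 _ (Additive.toMul t).2)
  · intro g hg hgu a b hab
    have m1 := memG g hg hgu _ _ hab
    have m2 := memG g hg hgu _ _ (hrep g a)
    have m3 := memG g hg hgu _ _ (hrep g b)
    beta_reduce
    rw [hD _ _ _ m1, hD _ _ _ m2, hD _ _ _ m3, ← ofMul_mul]
    congr 1
    apply Subtype.ext
    change _ = ρ.E y g (rep g a) a * ρ.E y g (rep g b) b
    rw [← hrep2 g a b hab, ← ρ.E_cocycle hy hy0 hg (hrep g a) hab, hM _ m1 _ m2, ← mul_assoc,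
      hM2 _ m2, one_mul]
  · intro g hg a b hab
    have e := ρ.E_one hy hy0 hg hab
    have m : ρ.E y g a b ∈ M := by rw [e]; exact M.one_mem
    rw [hD _ _ _ m]
    exact Subtype.ext e
  · intro a b h
    rw [hD _ _ _ (memU a b)] at h
    exact ρ.of_E_one hy hy0 hu0 (ρ.c_CI hy hy0 hu hu0 a b) (congrArg Subtype.val h)
  · intro a a' b h
    rw [hD _ _ _ (memU a b), hD _ _ _ (memU a' b)]
    congr 1
    exact Subtype.ext (ρ.E_congr hy hy0 hu0 (ρ.c_CI hy hy0 hu hu0 a b) h (ρ.refl _ _))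
  · intro C _ hC g hg g' hg' hA hA' hi h1 h2 h3 a b hab
    have m1 := memG g hg h1 a b (ρ.anti (c_le hy hy0 hC hA hg (n_le hg)) hab)
    have m2 : ρ.E y g' a b ∈ M := by
      rcases h2 with h2 | rfl
      · exact memG g' hg' h2 a b (ρ.anti (c_le hy hy0 hC hA' hg' (n_le hg')) hab)
      · exact memU a b
    have m3 := memG _ (H0.mul_mem hg hg') h3 a b (ρ.anti (c_le hy hy0 hC (hA.mul hA')
      (H0.mul_mem hg hg') (n_le (H0.mul_mem hg hg'))) hab)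
    rw [hD _ _ _ m1, hD _ _ _ m2, hD _ _ _ m3, ← ofMul_mul]
    congr 1
    exact Subtype.ext (ρ.E_add hy hy0 hC hg hg' hA hA' hi hab)

end Rep

end Pool.Agent.H935Z.LL
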