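import Mathlib

/-!
Linear lattices and the higher Arguesian identities.
-/

set_option autoImplicit false

namespace Pool.Agent.H935Z.Lin

universe u

/-- `L` is isomorphic to a sublattice of the lattice of equivalence relations on some set `S`
(in universe `u`) whose members pairwise commute under relational composition. -/
def IsLinear (L : Type) [Lattice L] : Prop :=
  ∃ (S : Type u) (φ : LatticeHom L (Setoid S)), Function.Injective φ ∧
    ∀ (x y : L) (a b : S), (∃ c, (φ x).r a c ∧ (φ y).r c b) ↔ (∃ c, (φ y).r a c ∧ (φ x).r c b)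

/-- The higher Arguesian identity `D n` in the variables `a 1, …, a n, b 1, …, b n`. -/
def SatisfiesD (L : Type) [Lattice L] (n : ℕ) : Prop :=
  ∀ (a b : ℕ → L) (h : (Finset.Icc 1 (n - 1)).Nonempty),
    a n ⊓ ((Finset.Icc 1 (n - 1)).inf' h (fun i => a i ⊔ b i) ⊔ b n) ≤
      a 1 ⊔ ((Finset.Icc 1 (n - 1)).sup' h
        (fun i => (a i ⊔ a (i + 1)) ⊓ (b i ⊔ b (i + 1))) ⊓ (b 1 ⊔ b n))

end Pool.Agent.H935Z.Lin
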