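import Mathlib

/-!
Normal subgroup lattices: the dual of the Palfy-Szabo identity below an abelian quotient,
and the doubling of an abelian normal subgroup.
-/

set_option autoImplicit false

namespace Pool.Agent.H935Z.ND

open Subgroup
open scoped commutatorElement

section A
variable {G : Type*} [Group G]

theorem conj_mem' {N : Subgroup G} [hN : N.Normal] {x : G} (hx : x ∈ N) (g : G) :
    g⁻¹ * x * g ∈ N := by
  simpa using hN.conj_mem x hx g⁻¹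

theorem mem_sup' {A B : Subgroup G} [A.Normal] {x : G} (hx : x ∈ A ⊔ B) :
    ∃ a ∈ A, ∃ b ∈ B, a * b = x := (Subgroup.mem_sup_of_normal_left).1 hx

/-- The dual identity, modulo a subgroup containing the commutator subgroup. -/
theorem dual_identity (X1 X2 X3 X4 Y1 Y2 Y3 Y4 C : Subgroup G)
    [X1.Normal] [X2.Normal] [X3.Normal] [X4.Normal]
    [Y1.Normal] [Y2.Normal] [Y3.Normal] [Y4.Normal]
    (hC : commutator G ≤ C) (h1 : X1 ⊓ Y1 ≤ C) (h2 : X2 ⊓ Y2 ≤ C) (h3 : X3 ⊓ Y3 ≤ C)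
    (h4 : X4 ⊓ Y4 ≤ C) :
    (((X1 ⊓ Y2 ⊔ X2 ⊓ Y1) ⊓ (X3 ⊓ Y4 ⊔ X4 ⊓ Y3)) ⊔
      ((X1 ⊓ Y3 ⊔ X3 ⊓ Y1) ⊓ (X2 ⊓ Y4 ⊔ X4 ⊓ Y2)) ⊔
      ((X1 ⊓ Y4 ⊔ X4 ⊓ Y1) ⊓ (X2 ⊓ Y3 ⊔ X3 ⊓ Y2))) ⊓ X1 ⊓ Y2 ⊓ Y3 ⊓ Y4 ≤ C := by
  rintro g ⟨⟨⟨⟨hg, g1⟩, g2⟩, g3⟩, g4⟩
  obtain ⟨q12, hq12, q3, ⟨hq3a, hq3b⟩, e⟩ := mem_sup' hg
  obtain ⟨q1, ⟨hq1a, hq1b⟩, q2, ⟨hq2a, hq2b⟩, e'⟩ := mem_sup' hq12
  obtain ⟨e12, ⟨x12, y12⟩, e21, ⟨x21, y21⟩, r1⟩ := mem_sup' hq1a
  obtain ⟨e34, ⟨x34, y34⟩, e43, ⟨x43, y43⟩, r2⟩ := mem_sup' hq1b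
  obtain ⟨e13, ⟨x13, y13⟩, e31, ⟨x31, y31⟩, r3⟩ := mem_sup' hq2a
  obtain ⟨e24, ⟨x24, y24⟩, e42, ⟨x42, y42⟩, r4⟩ := mem_sup' hq2b
  obtain ⟨e14, ⟨x14, y14⟩, e41, ⟨x41, y41⟩, r5⟩ := mem_sup' hq3a
  obtain ⟨e23, ⟨x23, y23⟩, e32, ⟨x32, y32⟩, r6⟩ := mem_sup' hq3b
  have eg : g = q1 * q2 * q3 := by rw [← e, ← e']
  have u1 : (e12 * e13 * e14)⁻¹ * g ∈ C := by
    refine h1 ⟨X1.mul_mem (X1.inv_mem (X1.mul_mem (X1.mul_mem x12 x13) x14)) g1, ?_⟩
    have : (e12 * e13 * e14)⁻¹ * g =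
        ((e13 * e14)⁻¹ * e21 * (e13 * e14)) * (e14⁻¹ * e31 * e14) * e41 := by
      rw [eg, ← r1, ← r3, ← r5]; group
    rw [this]
    exact Y1.mul_mem (Y1.mul_mem (conj_mem' y21 _) (conj_mem' y31 _)) y41
  have u2 : (e12 * e42 * e32)⁻¹ * g ∈ C := by
    refine h2 ⟨?_, Y2.mul_mem (Y2.inv_mem (Y2.mul_mem (Y2.mul_mem y12 y42) y32)) g2⟩
    have : (e12 * e42 * e32)⁻¹ * g =
        ((e42 * e32)⁻¹ * (e21 * e24) * (e42 * e32)) * (e32⁻¹ * e23 * e32) := by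
      rw [eg, ← r1, ← r4, ← r6]; group
    rw [this]
    exact X2.mul_mem (conj_mem' (X2.mul_mem x21 x24) _) (conj_mem' x23 _)
  have u3 : (e43 * e13 * e23)⁻¹ * g ∈ C := by
    refine h3 ⟨?_, Y3.mul_mem (Y3.inv_mem (Y3.mul_mem (Y3.mul_mem y43 y13) y23)) g3⟩
    have : (e43 * e13 * e23)⁻¹ * g =
        ((e43 * e13 * e23)⁻¹ * e34 * (e43 * e13 * e23)) * (e23⁻¹ * e31 * e23) * e32 := by
      rw [eg, ← r2, ← r3, ← r6]; group
    rw [this]
    exact X3.mul_mem (X3.mul_mem (conj_mem' x34 _) (conj_mem' x31 _)) x32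
  have u4 : (e34 * e24 * e14)⁻¹ * g ∈ C := by
    refine h4 ⟨?_, Y4.mul_mem (Y4.inv_mem (Y4.mul_mem (Y4.mul_mem y34 y24) y14)) g4⟩
    have : (e34 * e24 * e14)⁻¹ * g =
        ((e24 * e14)⁻¹ * e43 * (e24 * e14)) * (e14⁻¹ * e42 * e14) * e41 := by
      rw [eg, ← r2, ← r4, ← r5]; group
    rw [this]
    exact X4.mul_mem (X4.mul_mem (conj_mem' x43 _) (conj_mem' x42 _)) x41
  set u := ((e12 * e42 * e32)⁻¹ * g) * ((e43 * e13 * e23)⁻¹ * g) * ((e34 * e24 * e14)⁻¹ * g) *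
    ((e12 * e13 * e14)⁻¹ * g)⁻¹ with hu
  have hu' : u ∈ C := C.mul_mem (C.mul_mem (C.mul_mem u2 u3) u4) (C.inv_mem u1)
  have key : u⁻¹ * g ∈ commutator G := by
    rw [← Abelianization.ker_of, MonoidHom.mem_ker]
    have a1 := congrArg (fun x => Additive.ofMul (Abelianization.of x)) r2
    have a2 := congrArg (fun x => Additive.ofMul (Abelianization.of x)) r4
    have a3 := congrArg (fun x => Additive.ofMul (Abelianization.of x)) r6
    have a4 := congrArg (fun x => Additive.ofMul (Abelianization.of x)) eg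
    apply Additive.ofMul.injective
    simp only [hu, map_mul, map_inv, ofMul_mul, ofMul_inv, ofMul_one] at a1 a2 a3 a4 ⊢
    linear_combination (norm := abel) a1 + a2 + a3 - a4
  have := C.mul_mem hu' (hC key)
  simpa using this

/-- Three normal subgroups, any two of which generate the group: the group is abelian modulo
any subgroup containing their pairwise intersections. -/
theorem commutator_le_of_M3 (P Q R C : Subgroup G) [P.Normal] [Q.Normal] [R.Normal] [C.Normal]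
    (hPQ : P ⊓ Q ≤ C) (hPR : P ⊓ R ≤ C) (hQR : Q ⊓ R ≤ C)
    (tPQ : P ⊔ Q = ⊤) (tPR : P ⊔ R = ⊤) (tQR : Q ⊔ R = ⊤) : commutator G ≤ C := by
  let π := QuotientGroup.mk' C
  let Z : Subgroup G → Subgroup G := fun D => (centralizer (D.map π : Set (G ⧸ C))).comap π
  have memZ : ∀ (D : Subgroup G) (a : G), a ∈ Z D ↔ ∀ d ∈ D, π d * π a = π a * π d := by
    intro D a
    simp only [Z, mem_comap, mem_centralizer_iff]
    constructor
    · intro h d hd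
      exact h _ ⟨d, hd, rfl⟩
    · rintro h _ ⟨d, hd, rfl⟩
      exact h d hd
  have symm : ∀ A D : Subgroup G, A ≤ Z D → D ≤ Z A := by
    intro A D h d hd
    rw [memZ]
    intro a ha
    exact ((memZ D a).1 (h ha) d hd).symm
  have base : ∀ (A D : Subgroup G) [A.Normal] [D.Normal], A ⊓ D ≤ C → A ≤ Z D := by
    intro A D _ _ h a ha
    rw [memZ]
    intro d hd
    have hc : ⁅d, a⁆ ∈ C := h ((Subgroup.commutator_le_inf D A).trans (inf_comm D A).le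
      (commutator_mem_commutator hd ha))
    have : π ⁅d, a⁆ = 1 := (QuotientGroup.eq_one_iff _).2 hc
    rw [map_commutatorElement, commutatorElement_eq_one_iff_mul_comm] at this
    exact this
  have hP : P ≤ Z ⊤ := by
    apply symm
    rw [← tQR]
    exact sup_le (symm _ _ (base P Q hPQ)) (symm _ _ (base P R hPR))
  have hQ : Q ≤ Z ⊤ := by
    apply symm
    rw [← tPR]
    exact sup_le (base P Q hPQ) (symm _ _ (base Q R hQR))
  have hT : (⊤ : Subgroup G) ≤ Z ⊤ := by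
    conv_lhs => rw [← tPQ]
    exact sup_le hP hQ
  rw [_root_.commutator_def, commutator_le]
  intro a _ b _
  rw [← QuotientGroup.eq_one_iff]
  change π ⁅a, b⁆ = 1
  rw [map_commutatorElement, commutatorElement_eq_one_iff_mul_comm]
  exact (memZ ⊤ b).1 (hT trivial) a trivial

end A

section B
variable {H : Type} [Group H] (C : Subgroup H) [hCn : C.Normal]

/-- Pairs congruent modulo `C`. -/
def K : Subgroup (H × H) where
  carrier := {p | p.1⁻¹ * p.2 ∈ C}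
  one_mem' := by simp
  mul_mem' := by
    intro a b ha hb
    have : (a * b).1⁻¹ * (a * b).2 = (b.1⁻¹ * (a.1⁻¹ * a.2) * b.1) * (b.1⁻¹ * b.2) := by
      simp only [Prod.fst_mul, Prod.snd_mul]; group
    simp only [Set.mem_ofPred_eq] at ha hb ⊢
    rw [this]
    exact C.mul_mem (conj_mem' ha _) hb
  inv_mem' := by
    intro a ha
    have : (a⁻¹).1⁻¹ * (a⁻¹).2 = a.1 * (a.1⁻¹ * a.2)⁻¹ * a.1⁻¹ := by
      simp only [Prod.fst_inv, Prod.snd_inv]; group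
    simp only [Set.mem_ofPred_eq] at ha ⊢
    rw [this]
    exact hCn.conj_mem _ (C.inv_mem ha) _

theorem mem_K (p : H × H) : p ∈ K C ↔ p.1⁻¹ * p.2 ∈ C := Iff.rfl

def p1 : K C →* H := (MonoidHom.fst H H).comp (K C).subtype
def p2 : K C →* H := (MonoidHom.snd H H).comp (K C).subtype

theorem p1_surj : Function.Surjective (p1 C) := fun h => ⟨⟨(h, h), by simp [mem_K]⟩, rfl⟩

/-- The diagonal of `C`. -/
def dg : Subgroup (K C) := (p1 C).eqLocus (p2 C) ⊓ C.comap (p1 C)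

theorem mem_dg (p : K C) : p ∈ dg C ↔ p.1.1 = p.1.2 ∧ p.1.1 ∈ C := Iff.rfl

theorem dg_normal (hc : ∀ a ∈ C, ∀ b ∈ C, a * b = b * a) : (dg C).Normal := ⟨by
  rintro ⟨⟨a, b⟩, hab⟩ ⟨h1, h2⟩ ⟨⟨g, k⟩, hgk⟩
  have h1' : a = b := h1
  have h2' : a ∈ C := h2
  have hgk' : g⁻¹ * k ∈ C := hgk
  subst h1'
  refine ⟨?_, hCn.conj_mem a h2' g⟩
  change g * a * g⁻¹ = k * a * k⁻¹
  have := hc (g⁻¹ * k) hgk' a h2'
  calc g * a * g⁻¹ = g * (a * (g⁻¹ * k)) * k⁻¹ := by group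
    _ = g * ((g⁻¹ * k) * a) * k⁻¹ := by rw [this]
    _ = _ := by group⟩

theorem ker_inf : (p1 C).ker ⊓ (p2 C).ker = ⊥ := by
  rw [eq_bot_iff]
  rintro ⟨⟨a, b⟩, hab⟩ ⟨h1, h2⟩
  have h1 : a = 1 := h1
  have h2 : b = 1 := h2
  subst h1 h2
  rfl

theorem ker1_inf : (p1 C).ker ⊓ dg C = ⊥ := by
  rw [eq_bot_iff]
  rintro ⟨⟨a, b⟩, hab⟩ ⟨h1, h2, -⟩
  have h1 : a = 1 := h1
  have h2 : a = b := h2
  subst h2 h1
  rfl

theorem ker2_inf : (p2 C).ker ⊓ dg C = ⊥ := by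
  rw [eq_bot_iff]
  rintro ⟨⟨a, b⟩, hab⟩ ⟨h1, h2, -⟩
  have h1 : b = 1 := h1
  have h2 : a = b := h2
  subst h1 h2
  rfl

theorem le_ker_sup : C.comap (p1 C) ≤ (p1 C).ker ⊔ (p2 C).ker := by
  rintro ⟨⟨a, b⟩, hab⟩ ha
  have ha : a ∈ C := ha
  have hb : b ∈ C := by simpa using C.mul_mem ha hab
  have : (⟨(a, b), hab⟩ : K C) = ⟨(1, b), by simpa [mem_K] using hb⟩ *
      ⟨(a, 1), by simpa [mem_K] using ha⟩ := by ext <;> simp
  rw [this]
  exact mul_mem_sup rfl rfl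

theorem le_ker1_sup : C.comap (p1 C) ≤ (p1 C).ker ⊔ dg C := by
  rintro ⟨⟨a, b⟩, hab⟩ ha
  have ha : a ∈ C := ha
  have hb : b ∈ C := by simpa using C.mul_mem ha hab
  have : (⟨(a, b), hab⟩ : K C) = ⟨(1, b * a⁻¹), by
      simpa [mem_K] using C.mul_mem hb (C.inv_mem ha)⟩ *
      ⟨(a, a), by simp [mem_K]⟩ := by ext <;> simp
  rw [this]
  exact mul_mem_sup rfl ⟨rfl, ha⟩

theorem le_ker2_sup : C.comap (p1 C) ≤ (p2 C).ker ⊔ dg C := by
  rintro ⟨⟨a, b⟩, hab⟩ ha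
  have ha : a ∈ C := ha
  have hb : b ∈ C := by simpa using C.mul_mem ha hab
  have : (⟨(a, b), hab⟩ : K C) = ⟨(a * b⁻¹, 1), by
      simpa [mem_K] using C.mul_mem hb (C.inv_mem ha)⟩ *
      ⟨(b, b), by simp [mem_K]⟩ := by ext <;> simp
  rw [this]
  exact mul_mem_sup rfl ⟨rfl, hb⟩

end B

/-- The lattice of normal subgroups. -/
def NL (G : Type) [Group G] : Sublattice (Subgroup G) where
  carrier := {N | N.Normal}
  supClosed' := by
    intro a ha b hb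
    have : a.Normal := ha
    have : b.Normal := hb
    exact (inferInstance : (a ⊔ b).Normal)
  infClosed' := by
    intro a ha b hb
    have : a.Normal := ha
    have : b.Normal := hb
    exact (inferInstance : (a ⊓ b).Normal)

/-- If the dual of the normal subgroup lattice of `K C` embeds in a normal subgroup lattice, the
identity holds for `C`. -/
theorem main {H : Type} [Group H] (X1 X2 X3 X4 Y1 Y2 Y3 Y4 C : Subgroup H)
    [X1.Normal] [X2.Normal] [X3.Normal] [X4.Normal]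
    [Y1.Normal] [Y2.Normal] [Y3.Normal] [Y4.Normal] [C.Normal]
    (hc : ∀ a ∈ C, ∀ b ∈ C, a * b = b * a)
    (h1 : C ≤ X1 ⊔ Y1) (h2 : C ≤ X2 ⊔ Y2) (h3 : C ≤ X3 ⊔ Y3) (h4 : C ≤ X4 ⊔ Y4)
    {G : Type} [Group G] (g : (NL (K C))ᵒᵈ → Subgroup G) (hinj : Function.Injective g)
    (hn : ∀ x, (g x).Normal) (hs : ∀ x y, g (x ⊔ y) = g x ⊔ g y)
    (hi : ∀ x y, g (x ⊓ y) = g x ⊓ g y) :
    C ≤ (((X1 ⊔ Y2) ⊓ (X2 ⊔ Y1) ⊔ (X3 ⊔ Y4) ⊓ (X4 ⊔ Y3)) ⊓
      ((X1 ⊔ Y3) ⊓ (X3 ⊔ Y1) ⊔ (X2 ⊔ Y4) ⊓ (X4 ⊔ Y2)) ⊓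
      ((X1 ⊔ Y4) ⊓ (X4 ⊔ Y1) ⊔ (X2 ⊔ Y3) ⊓ (X3 ⊔ Y2))) ⊔ X1 ⊔ Y2 ⊔ Y3 ⊔ Y4 := by
  let bot : NL (K C) := ⟨⊥, (inferInstance : (⊥ : Subgroup (K C)).Normal)⟩
  let T := g (OrderDual.toDual bot)
  let ψ : NL (K C) → Subgroup T := fun x => (g (OrderDual.toDual x)).subgroupOf T
  have hle : ∀ x : NL (K C), g (OrderDual.toDual x) ≤ T := by
    intro x
    have : OrderDual.toDual x ⊔ OrderDual.toDual bot = OrderDual.toDual bot := by
      rw [← toDual_inf]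
      congr 1
      exact inf_eq_right.2 (show bot ≤ x from bot_le (a := (x : Subgroup (K C))))
    have h := hs (OrderDual.toDual x) (OrderDual.toDual bot)
    rw [this] at h
    exact le_sup_left.trans h.ge
  have ψs : ∀ x y, ψ (x ⊓ y) = ψ x ⊔ ψ y := by
    intro x y
    simp only [ψ, toDual_inf, hs]
    exact Subgroup.subgroupOf_sup (hle x) (hle y)
  have ψi : ∀ x y, ψ (x ⊔ y) = ψ x ⊓ ψ y := by
    intro x y
    simp only [ψ, toDual_sup, hi]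
    rfl
  have ψinj : Function.Injective ψ := by
    intro x y h
    have h' := congrArg (Subgroup.map T.subtype) h
    simp only [ψ, subgroupOf_map_subtype, inf_eq_left.2 (hle _)] at h'
    exact hinj h'
  have ψn : ∀ x, (ψ x).Normal := fun x => by
    have := hn (OrderDual.toDual x)
    exact (inferInstance : ((g (OrderDual.toDual x)).subgroupOf T).Normal)
  have ψbot : ψ bot = ⊤ := subgroupOf_self _
  have ψanti : ∀ x y, x ≤ y → ψ y ≤ ψ x := by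
    intro x y h
    have := ψi x y
    rw [sup_eq_right.2 h] at this
    exact this.le.trans inf_le_left
  have ψrefl : ∀ x y, ψ y ≤ ψ x → x ≤ y := by
    intro x y h
    have := ψi x y
    rw [inf_eq_right.2 h] at this
    exact sup_eq_right.1 (ψinj this)
  let up : ∀ (N : Subgroup H) [N.Normal], NL (K C) := fun N _ =>
    ⟨N.comap (p1 C), (inferInstance : (N.comap (p1 C)).Normal)⟩
  let kP : NL (K C) := ⟨(p1 C).ker, (inferInstance : (p1 C).ker.Normal)⟩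
  let kQ : NL (K C) := ⟨(p2 C).ker, (inferInstance : (p2 C).ker.Normal)⟩
  let kR : NL (K C) := ⟨dg C, dg_normal C hc⟩
  have := ψn kP
  have := ψn kQ
  have := ψn kR
  have := ψn (up C)
  have hcomm : commutator T ≤ ψ (up C) := by
    refine commutator_le_of_M3 (ψ kP) (ψ kQ) (ψ kR) (ψ (up C)) ?_ ?_ ?_ ?_ ?_ ?_
    · rw [← ψi]; exact ψanti _ _ (le_ker_sup C)
    · rw [← ψi]; exact ψanti _ _ (le_ker1_sup C)
    · rw [← ψi]; exact ψanti _ _ (le_ker2_sup C)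
    · rw [← ψs, ← ψbot]; congr 1; exact Subtype.ext (ker_inf C)
    · rw [← ψs, ← ψbot]; congr 1; exact Subtype.ext (ker1_inf C)
    · rw [← ψs, ← ψbot]; congr 1; exact Subtype.ext (ker2_inf C)
  have hup : ∀ (X Y : Subgroup H) [X.Normal] [Y.Normal], C ≤ X ⊔ Y →
      ψ (up X) ⊓ ψ (up Y) ≤ ψ (up C) := by
    intro X Y _ _ h
    rw [← ψi]
    apply ψanti
    change C.comap (p1 C) ≤ X.comap (p1 C) ⊔ Y.comap (p1 C)
    rw [comap_sup_eq _ _ _ (p1_surj C)]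
    exact comap_mono h
  have := ψn (up X1)
  have := ψn (up X2)
  have := ψn (up X3)
  have := ψn (up X4)
  have := ψn (up Y1)
  have := ψn (up Y2)
  have := ψn (up Y3)
  have := ψn (up Y4)
  have key := dual_identity (ψ (up X1)) (ψ (up X2)) (ψ (up X3)) (ψ (up X4))
    (ψ (up Y1)) (ψ (up Y2)) (ψ (up Y3)) (ψ (up Y4)) (ψ (up C)) hcomm
    (hup _ _ h1) (hup _ _ h2) (hup _ _ h3) (hup _ _ h4)
  simp only [← ψi, ← ψs] at key
  have key2 := ψrefl _ _ key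
  rw [← Subtype.coe_le_coe] at key2
  simp only [Sublattice.coe_sup, Sublattice.coe_inf, up, ← comap_inf,
    comap_sup_eq _ _ _ (p1_surj C)] at key2
  exact (comap_le_comap_of_surjective (p1_surj C)).1 key2

end Pool.Agent.H935Z.ND
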