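import Mathlib
import Pool.Agent.H935Z.LLAbs
import Pool.Agent.H935Z.LLCert
import Pool.Agent.H935Z.NDMain

/-!
A group of class two whose normal subgroup lattice has a non-linear dual.
-/

set_option autoImplicit false

namespace Pool.Agent.H935Z.LL

open Subgroup

@[ext] structure G where
  v : V
  w : W
  s : ZMod 2
  t : ZMod 2

instance : Mul G := ⟨fun a b => ⟨a.v + b.v, a.w + b.w + op a.v b.v, a.s + b.s, a.t + b.t⟩⟩
instance : One G := ⟨⟨0, 0, 0, 0⟩⟩
instance : Inv G := ⟨fun a => ⟨-a.v, -a.w + op a.v a.v, -a.s, -a.t⟩⟩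

@[simp] theorem mul_v (a b : G) : (a * b).v = a.v + b.v := rfl
@[simp] theorem mul_w (a b : G) : (a * b).w = a.w + b.w + op a.v b.v := rfl
@[simp] theorem mul_s (a b : G) : (a * b).s = a.s + b.s := rfl
@[simp] theorem mul_t (a b : G) : (a * b).t = a.t + b.t := rfl
@[simp] theorem one_v : (1 : G).v = 0 := rfl
@[simp] theorem one_w : (1 : G).w = 0 := rfl
@[simp] theorem one_s : (1 : G).s = 0 := rfl
@[simp] theorem one_t : (1 : G).t = 0 := rfl
@[simp] theorem inv_v (a : G) : (a⁻¹).v = -a.v := rfl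
@[simp] theorem inv_w (a : G) : (a⁻¹).w = -a.w + op a.v a.v := rfl
@[simp] theorem inv_s (a : G) : (a⁻¹).s = -a.s := rfl
@[simp] theorem inv_t (a : G) : (a⁻¹).t = -a.t := rfl

@[simp] theorem op_zero_left (a : V) : op 0 a = 0 := by funext i j; simp [op]
@[simp] theorem op_zero_right (a : V) : op a 0 = 0 := by funext i j; simp [op]
theorem op_add_left (a b d : V) : op (a + b) d = op a d + op b d := by
  funext i j; simp [op, add_mul]
theorem op_add_right (a b d : V) : op a (b + d) = op a b + op a d := by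
  funext i j; simp [op, mul_add]
theorem op_neg_left (a b : V) : op (-a) b = -op a b := by funext i j; simp [op]
theorem op_neg_right (a b : V) : op a (-b) = -op a b := by funext i j; simp [op]

@[simp] theorem z2 : ∀ a : ZMod 2, a + a = 0 := by decide
@[simp] theorem z2' : ∀ a b : ZMod 2, a + b + a = b := by decide

instance : Group G := Group.ofLeftAxioms
  (fun a b d => by
    apply G.ext
    · simp [add_assoc]
    · simp only [mul_v, mul_w, op_add_left, op_add_right]; abel
    · simp [add_assoc]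
    · simp [add_assoc])
  (fun a => by apply G.ext <;> simp)
  (fun a => by
    apply G.ext
    · simp
    · simp only [mul_w, inv_w, inv_v, one_w, op_neg_left]; abel
    · simp
    · simp)

theorem z2neg : ∀ a : ZMod 2, -a = a := by decide
theorem z2cases : ∀ a : ZMod 2, a = 0 ∨ a = 1 := by decide
theorem vneg (a : V) : -a = a := by funext i; exact z2neg _
theorem wneg (a : W) : -a = a := by funext i j; exact z2neg _
theorem vv (a : V) : a + a = 0 := by funext i; exact z2 _
theorem ww (a : W) : a + a = 0 := by funext i j; exact z2 _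

@[simp] theorem lam_zero (l : W) : lam l 0 = 0 := by simp [lam]
theorem lam_add (l a b : W) : lam l (a + b) = lam l a + lam l b := by
  simp [lam, mul_add, Finset.sum_add_distrib]

theorem conj_central (a g : G) (ha : a.v = 0) : g * a * g⁻¹ = a := by
  apply G.ext
  · simp [ha]
  · simp only [mul_w, mul_v, inv_w, inv_v, ha, op_zero_right, add_zero, op_neg_right]; abel
  · simp
  · simp

theorem CI_of (a : G) (ha : a.v = 0) : CI a := by
  refine ⟨?_, fun h => ?_⟩
  · apply G.ext <;> simp [ha, ww]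
  · have := conj_central a h ha
    rw [mul_inv_eq_iff_eq_mul] at this
    exact this

def H0 : Subgroup G where
  carrier := {k | k.t = 0}
  one_mem' := rfl
  mul_mem' := by intro a b ha hb; simp_all
  inv_mem' := by intro a ha; simp_all

def H1 : Subgroup G where
  carrier := {k | k.s = 0}
  one_mem' := rfl
  mul_mem' := by intro a b ha hb; simp_all
  inv_mem' := by intro a ha; simp_all

theorem mem_H0 (k : G) : k ∈ H0 ↔ k.t = 0 := Iff.rfl
theorem mem_H1 (k : G) : k ∈ H1 ↔ k.s = 0 := Iff.rfl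

instance : H0.Normal := ⟨fun a ha g => by rw [mem_H0] at ha ⊢; simp [ha]⟩
instance : H1.Normal := ⟨fun a ha g => by rw [mem_H1] at ha ⊢; simp [ha]⟩

def Nl (l : W) : Subgroup G where
  carrier := {k | k.v = 0 ∧ k.t = 0 ∧ k.s = lam l k.w}
  one_mem' := ⟨rfl, rfl, by simp⟩
  mul_mem' := by
    rintro a b ⟨h1, h2, h3⟩ ⟨h4, h5, h6⟩
    refine ⟨?_, ?_, ?_⟩ <;> simp [h1, h2, h3, h4, h5, h6, lam_add]
  inv_mem' := by
    rintro a ⟨h1, h2, h3⟩
    refine ⟨?_, ?_, ?_⟩ <;> simp [h1, h2, h3, wneg]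

theorem mem_Nl (l : W) (k : G) : k ∈ Nl l ↔ k.v = 0 ∧ k.t = 0 ∧ k.s = lam l k.w := Iff.rfl

instance (l : W) : (Nl l).Normal := ⟨fun a ha g => by rw [conj_central a g ha.1]; exact ha⟩

def Cl (l l' : W) : Subgroup G where
  carrier := {k | k.v = 0 ∧ k.t = 0 ∧ k.s = 0 ∧ lam l k.w = lam l' k.w}
  one_mem' := ⟨rfl, rfl, rfl, by simp⟩
  mul_mem' := by
    rintro a b ⟨h1, h2, h3, h3'⟩ ⟨h4, h5, h6, h6'⟩
    refine ⟨?_, ?_, ?_, ?_⟩ <;> simp [h1, h2, h3, h4, h5, h6, h3', h6', lam_add]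
  inv_mem' := by
    rintro a ⟨h1, h2, h3, h3'⟩
    refine ⟨?_, ?_, ?_, ?_⟩ <;> simp [h1, h2, h3, h3', wneg]

theorem mem_Cl (l l' : W) (k : G) :
    k ∈ Cl l l' ↔ k.v = 0 ∧ k.t = 0 ∧ k.s = 0 ∧ lam l k.w = lam l' k.w := Iff.rfl

instance (l l' : W) : (Cl l l').Normal := ⟨fun a ha g => by rw [conj_central a g ha.1]; exact ha⟩

def yy : G := ⟨0, 0, 0, 1⟩
def uu : G := ⟨0, 0, 1, 0⟩
def gg (a : V) : G := ⟨a, 0, 0, 0⟩
def cw (w : W) : G := ⟨0, w, 0, 0⟩

theorem uu_not {g : G} (hg : g.s = 0) : uu ∉ n g := fun h => by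
  have : uu ∈ H1 := n_le (N := H1) hg h
  exact absurd this (by rw [mem_H1]; decide)

theorem A_gg {l l' : W} {a : V} (h1 : lam l (op a a) = lam l' (op a a))
    (h2 : ∀ t : V, lam l (op a t + op t a) = lam l' (op a t + op t a)) : A (Cl l l') (gg a) := by
  refine ⟨?_, fun h => ?_⟩
  · rw [mem_Cl]
    simp [gg, vv, h1]
  · rw [mem_Cl]
    refine ⟨by simp [gg], by simp [gg], by simp [gg], ?_⟩
    have : ((gg a)⁻¹ * (h * gg a * h⁻¹)).w = op a h.v + op h.v a := by
      simp only [gg, mul_w, mul_v, inv_w, inv_v, op_add_left, op_add_right, op_neg_left,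
        op_neg_right]
      conv_rhs => rw [← wneg (op a h.v)]
      abel
    rw [this]
    exact h2 _

theorem not_rep {X : Type*} (ρ : Rep G X) (x0 x1 : X) : ρ.r (n uu) x1 x0 := by
  have hy : CI yy := CI_of _ rfl
  have hy0 : yy ∉ H0 := by rw [mem_H0]; decide
  have hu : CI uu := CI_of _ rfl
  have hu0 : uu ∈ H0 := rfl
  obtain ⟨T, _, D, pot, hh, hpot, hzero, hnz, hcg, hadd⟩ := ρ.package hy hy0 hu hu0
    (CI_of (cw fun _ _ => 1) rfl) rfl
    (fun h => absurd (congrFun (congrFun (congrArg G.w h) 0) 0) (by decide))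
    (fun h => absurd (congrArg G.s h) (by decide))
    (fun h => absurd (congrArg G.s h) (by decide))
  have hx : ∀ l : W, ∃ x, ρ.r (Nl l) x0 x ∧ ρ.r (n uu) x x1 := fun l =>
    ρ.amal' (hu.inf_le (N := Nl l) (by
      rw [mem_Nl]; simp [uu])) (ρ.bot x0 x1)
  choose ξ hξ0 hξ1 using hx
  apply hnz
  set m := D uu x1 x0 with hm
  have hcw : ∀ l w : W, D (cw w) (ξ l) x0 = (lam l w).val • m := by
    intro l w
    rcases z2cases (lam l w) with h | h
    · rw [h, ZMod.val_zero, zero_smul]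
      exact hzero _ rfl _ _ (ρ.symm (ρ.of_mem1 (N := Nl l) ⟨rfl, rfl, h.symm⟩ (hξ0 l)))
    · have hw : w ≠ 0 := by
        rintro rfl
        simp at h
      have e1 := hadd ⊥ bot_le (cw w) rfl uu rfl ((CI_of _ rfl).A _) (hu.A _) (by
          rw [mem_bot]
          intro h'
          have := congrArg G.s h'
          simp [cw, uu] at this) (uu_not rfl) (Or.inr rfl) (by
          intro h'
          rcases (CI_of (cw w * uu) (by simp [cw, uu])).mem_n h' with h' | h'
          · exact absurd (congrArg G.s h') (by decide)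
          · apply hw
            have := congrArg G.w h'
            simpa [cw, uu] using this.symm) (ξ l) x0 (ρ.bot _ _)
      rw [hzero _ (by rw [mem_H0]; simp [cw, uu]) _ _ (ρ.symm (ρ.of_mem1 (N := Nl l)
        (by rw [mem_Nl]; simp [cw, uu, h]) (hξ0 l))), hcg _ _ _ (hξ1 l), ← hm] at e1
      rw [h, ZMod.val_one, one_smul]
      calc D (cw w) (ξ l) x0 = D (cw w) (ξ l) x0 + (m + m) := by rw [hh, add_zero]
        _ = m := by rw [← add_assoc, ← e1, zero_add]
  refine cert hh (fun a l => pot (gg (vec a)) (ξ (mat l))) m ?_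
  intro l l' a b d k
  generalize mat l = l
  generalize mat l' = l'
  generalize vec a = a
  generalize vec b = b
  generalize vec d = d
  rintro ⟨hd, hd0, ha1, hb1, ha2, hb2, hk⟩
  have hC : Cl l l' ≤ H0 := fun k hk => hk.2.1
  have hr : ρ.r (Cl l l') (ξ l) (ξ l') := by
    have h1 : ρ.r (Nl l ⊓ Nl l') (ξ l) (ξ l') :=
      ρ.trans (ρ.symm (ρ.anti inf_le_left (hξ0 l))) (ρ.anti inf_le_right (hξ0 l'))
    have h2 : ρ.r (n uu) (ξ l) (ξ l') := ρ.trans (hξ1 l) (ρ.symm (hξ1 l'))
    refine ρ.anti ?_ (ρ.join h1 h2)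
    rintro k ⟨k1, k2, k3, k4⟩
    rcases z2cases (lam l k.w) with h | h
    · exact mem_sup_left ⟨⟨k1, k2, by rw [k3, h]⟩, ⟨k1, k2, by rw [k3, ← k4, h]⟩⟩
    · have e : k = (k * uu) * uu := by rw [mul_assoc, hu.1, mul_one]
      rw [e]
      refine mul_mem_sup ⟨?_, ?_⟩ (mem_n uu)
      · change k * uu ∈ Nl l
        rw [mem_Nl]; simp [uu, k1, k2, k3, h]
      · change k * uu ∈ Nl l'
        rw [mem_Nl]; simp [uu, k1, k2, k3, ← k4, h]
  have Aa := A_gg ha1 ha2
  have Ab := A_gg hb1 hb2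
  have hw : CI (cw (op a b)) := CI_of _ rfl
  have e0 : gg a * gg b = gg d * cw (op a b) := by
    apply G.ext <;> simp [gg, cw, hd]
  have Ad : A (Cl l l') (gg d) := by
    have := (Aa.mul Ab).mul_CI hw
    rwa [e0, mul_assoc, hw.1, mul_one] at this
  have e1 := hadd _ hC (gg a) rfl (gg b) rfl Aa Ab (by
    intro h
    apply hd0
    have := h.1
    simpa [gg, vneg, hd] using this) (uu_not rfl) (Or.inl (uu_not rfl))
    (uu_not (by simp [gg])) _ _ hr
  have e2 := hadd _ hC (gg d) rfl (cw (op a b)) rfl Ad (hw.A _) (by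
    intro h
    apply hd0
    have := h.1
    simpa [gg, cw] using this) (uu_not rfl) (Or.inl (uu_not rfl))
    (uu_not (by simp [gg, cw])) _ _ hr
  have pp : ∀ x : V, A (Cl l l') (gg x) →
      D (gg x) (ξ l) (ξ l') = pot (gg x) (ξ l) + pot (gg x) (ξ l') := fun x hx =>
    hpot _ rfl (uu_not rfl) _ _ (ρ.anti (Rep.c_le hy hy0 hC hx rfl (n_le rfl)) hr)
  have pw : ∀ x x', D (cw (op a b)) x x' = pot (cw (op a b)) x + pot (cw (op a b)) x' :=
    fun x x' => hpot _ rfl (uu_not rfl) _ _ (ρ.c_CI hy hy0 hw rfl _ _)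
  have e3 : D (cw (op a b)) (ξ l) (ξ l') = k • m := by
    rw [← hk, add_smul, ← hcw, ← hcw, pw, pw, pw]
    calc _ = pot (cw (op a b)) (ξ l) + pot (cw (op a b)) (ξ l') +
        (pot (cw (op a b)) x0 + pot (cw (op a b)) x0) := by rw [hh, add_zero]
      _ = _ := by abel
  rw [← pp a Aa, ← pp b Ab, ← pp d Ad, ← e1, e0, e2, e3, add_right_comm, hh, zero_add]

open ND

/-- Normal subgroups as permuting equivalence relations. -/
def cosetHom (K : Type) [Group K] : LatticeHom (NL K) (Setoid K) where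
  toFun N := QuotientGroup.leftRel N.1
  map_inf' N M := by
    ext a b
    simp only [Setoid.inf_iff_and, QuotientGroup.leftRel_apply]
    rfl
  map_sup' N M := by
    have hN : N.1.Normal := N.2
    apply le_antisymm
    · intro a b h
      rw [QuotientGroup.leftRel_apply] at h
      obtain ⟨x, hx, z, hz, e⟩ := mem_sup' (A := N.1) (B := M.1) h
      have h1 : (QuotientGroup.leftRel N.1 ⊔ QuotientGroup.leftRel M.1) a (a * x) :=
        Setoid.le_def.1 le_sup_left (QuotientGroup.leftRel_apply.2 (by simpa using hx))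
      have h2 : (QuotientGroup.leftRel N.1 ⊔ QuotientGroup.leftRel M.1) (a * x) b :=
        Setoid.le_def.1 le_sup_right (QuotientGroup.leftRel_apply.2 (by
          have : (a * x)⁻¹ * b = z := by
            rw [mul_inv_rev, mul_assoc, ← e]; group
          rw [this]; exact hz))
      exact Setoid.trans' _ h1 h2
    · refine sup_le ?_ ?_
      · intro a b h
        rw [QuotientGroup.leftRel_apply] at h ⊢
        exact mem_sup_left h
      · intro a b h
        rw [QuotientGroup.leftRel_apply] at h ⊢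
        exact mem_sup_right h

theorem cosetHom_r {K : Type} [Group K] (N : NL K) (a b : K) :
    (cosetHom K N).r a b ↔ a⁻¹ * b ∈ N.1 := QuotientGroup.leftRel_apply

theorem cosetHom_inj (K : Type) [Group K] : Function.Injective (cosetHom K) := by
  intro N M h
  apply Subtype.ext
  ext x
  have h1 := cosetHom_r N 1 x
  have h2 := cosetHom_r M 1 x
  rw [h] at h1
  simpa using h1.symm.trans h2

theorem cosetHom_perm {K : Type} [Group K] (N M : NL K) (x y : K)
    (h : ∃ z, (cosetHom K N).r x z ∧ (cosetHom K M).r z y) :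
    ∃ z, (cosetHom K M).r x z ∧ (cosetHom K N).r z y := by
  obtain ⟨z, h1, h2⟩ := h
  rw [cosetHom_r] at h1 h2
  have hN : N.1.Normal := N.2
  refine ⟨x * (z⁻¹ * y), (cosetHom_r _ _ _).2 (by simpa using h2), (cosetHom_r _ _ _).2 ?_⟩
  have : (x * (z⁻¹ * y))⁻¹ * y = (z⁻¹ * y)⁻¹ * (x⁻¹ * z) * (z⁻¹ * y) := by group
  rw [this]
  exact conj_mem' h1 _

theorem comp_of_sup {X : Type*} (r s : Setoid X)
    (h : ∀ x y, (∃ z, r.r x z ∧ s.r z y) ↔ (∃ z, s.r x z ∧ r.r z y)) {x y : X}
    (hxy : (r ⊔ s).r x y) : ∃ z, r.r x z ∧ s.r z y := by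
  let t : Setoid X := ⟨fun x y => ∃ z, r.r x z ∧ s.r z y,
    ⟨fun x => ⟨x, r.refl' x, s.refl' x⟩,
     fun {x y} ⟨z, h1, h2⟩ => (h y x).2 ⟨z, s.symm' h2, r.symm' h1⟩,
     fun {x y w} ⟨z, h1, h2⟩ ⟨z', h3, h4⟩ => by
      obtain ⟨v, h5, h6⟩ := (h z z').2 ⟨y, h2, h3⟩
      exact ⟨v, r.trans' h1 h5, s.trans' h6 h4⟩⟩⟩
  have : r ⊔ s ≤ t := sup_le (fun x y h => ⟨y, h, s.refl' y⟩) (fun x y h => ⟨x, r.refl' x, h⟩)
  exact this hxy

theorem dual_not_linear {X : Type*} (f : LatticeHom (NL G)ᵒᵈ (Setoid X))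
    (hf : Function.Injective f)
    (hp : ∀ (a b : (NL G)ᵒᵈ) (x y : X),
      (∃ z, (f a).r x z ∧ (f b).r z y) ↔ (∃ z, (f b).r x z ∧ (f a).r z y)) : False := by
  classical
  let e : ∀ (N : Subgroup G), N.Normal → (NL G)ᵒᵈ := fun N h => OrderDual.toDual ⟨N, h⟩
  let b : (NL G)ᵒᵈ := e ⊥ inferInstance
  have hmono : ∀ (N M : Subgroup G) (hN : N.Normal) (hM : M.Normal), N ≤ M →
      f (e M hM) ≤ f (e N hN) := fun N M hN hM h =>
    OrderHomClass.mono f (show e M hM ≤ e N hN from h)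
  have key : f b ≤ f (e (n uu) inferInstance) := by
    intro x0 x1 h01
    let X' := {x : X // (f b).r x0 x}
    let R : Subgroup G → X' → X' → Prop := fun N p q =>
      ∀ h : N.Normal, (f (e N h)).r p.1 q.1
    let ρ : Rep G X' :=
      { r := R
        refl := fun N x h => (f (e N h)).refl' _
        symm := fun hxy h => (f (e _ h)).symm' (hxy h)
        trans := fun hxy hyz h => (f (e _ h)).trans' (hxy h) (hyz h)
        anti := fun {N M} hN hM {x y} hle hxy h => hmono N M hN hM hle (hxy hM)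
        join := fun {N M} hN hM {x y} h1 h2 h => by
          have : e (N ⊔ M) h = e N hN ⊓ e M hM := rfl
          rw [this, InfHomClass.map_inf]
          exact ⟨h1 hN, h2 hM⟩
        amal := fun {N M} hN hM {x y} h1 => by
          have h2 := h1 inferInstance
          have : e (N ⊓ M) inferInstance = e N hN ⊔ e M hM := rfl
          rw [this, SupHomClass.map_sup] at h2
          obtain ⟨z, h3, h4⟩ := comp_of_sup _ _ (hp _ _) h2
          exact ⟨⟨z, (f b).trans' x.2 (hmono ⊥ N _ hN bot_le h3)⟩, fun _ => h3, fun _ => h4⟩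
        bot := fun x y _ => (f b).trans' ((f b).symm' x.2) y.2 }
    exact not_rep ρ ⟨x1, h01⟩ ⟨x0, (f b).refl' x0⟩ inferInstance
  have h2 : f b = f (e (n uu) inferInstance) :=
    le_antisymm key (hmono ⊥ _ _ _ bot_le)
  have h3 : (⊥ : Subgroup G) = n uu := congrArg (fun x => (OrderDual.ofDual x).1) (hf h2)
  have h4 : uu ∈ (⊥ : Subgroup G) := h3 ▸ mem_n uu
  exact absurd (congrArg G.s (mem_bot.1 h4)) (by decide)

end Pool.Agent.H935Z.LL
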