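import Mathlib
import Pool.Agent.H935Z.LLMain
import Pool.Agent.H935Z.LLDefs

/-!
The dual of a normal subgroup lattice satisfies all higher Arguesian identities.
-/

set_option autoImplicit false

namespace Pool.Agent.H935Z.Lin

open Subgroup ND

theorem dualD {K : Type} [Group K] (n : ℕ) : SatisfiesD (NL K)ᵒᵈ n := by
  intro a b h
  let A : ℕ → NL K := fun i => OrderDual.ofDual (a i)
  let B : ℕ → NL K := fun i => OrderDual.ofDual (b i)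
  let I : NL K := (Finset.Icc 1 (n - 1)).inf' h (fun i => (A i ⊓ A (i + 1)) ⊔ (B i ⊓ B (i + 1)))
  let J : NL K := (Finset.Icc 1 (n - 1)).sup' h (fun i => A i ⊓ B i)
  change A 1 ⊓ (I ⊔ (B 1 ⊓ B n)) ≤ A n ⊔ (J ⊓ B n)
  have hn : 1 ≤ n - 1 := by
    obtain ⟨i, hi⟩ := h
    rw [Finset.mem_Icc] at hi
    omega
  have hI : ∀ i, 1 ≤ i → i ≤ n - 1 → I.1 ≤ ((A i).1 ⊓ (A (i + 1)).1) ⊔ ((B i).1 ⊓ (B (i + 1)).1) :=
    fun i h1 h2 => (Finset.inf'_le (fun i => (A i ⊓ A (i + 1)) ⊔ (B i ⊓ B (i + 1)))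
      (Finset.mem_Icc.2 ⟨h1, h2⟩) : I ≤ _)
  have hJ : ∀ i, 1 ≤ i → i ≤ n - 1 → (A i).1 ⊓ (B i).1 ≤ J.1 :=
    fun i h1 h2 => (Finset.le_sup' (fun i => A i ⊓ B i) (Finset.mem_Icc.2 ⟨h1, h2⟩) : _ ≤ J)
  have hAn : ∀ i, (A i).1.Normal := fun i => (A i).2
  have hIn : I.1.Normal := I.2
  change (A 1).1 ⊓ (I.1 ⊔ ((B 1).1 ⊓ (B n).1)) ≤ (A n).1 ⊔ (J.1 ⊓ (B n).1)
  rintro g ⟨hg1, hg2⟩
  obtain ⟨c, hc, d, ⟨hd1, hdn⟩, rfl⟩ := mem_sup' hg2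
  have key : ∀ i, 1 ≤ i → i ≤ n - 1 →
      ∃ x ∈ (A (i + 1)).1, ∃ z ∈ (B (i + 1)).1, x * z = c ∧ z * d ∈ J.1 := by
    intro i h1
    induction i, h1 using Nat.le_induction with
    | base =>
      intro h2
      have := hAn 1
      have := hAn 2
      obtain ⟨x, ⟨hx1, hx2⟩, z, ⟨hz1, hz2⟩, e⟩ := mem_sup' (hI 1 le_rfl h2 hc)
      refine ⟨x, hx2, z, hz2, e, hJ 1 le_rfl h2 ⟨?_, (B 1).1.mul_mem hz1 hd1⟩⟩
      have : z * d = x⁻¹ * (c * d) := by rw [← e]; group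
      rw [this]
      exact (A 1).1.mul_mem ((A 1).1.inv_mem hx1) hg1
    | succ i h1 ih =>
      intro h2
      obtain ⟨x, hx, z, hz, e, hj⟩ := ih (by omega)
      have := hAn (i + 1)
      have := hAn (i + 1 + 1)
      obtain ⟨x', ⟨hx1, hx2⟩, z', ⟨hz1, hz2⟩, e'⟩ := mem_sup' (hI (i + 1) (by omega) h2 hc)
      refine ⟨x', hx2, z', hz2, e', ?_⟩
      have e1 : z' * d = (z' * z⁻¹) * (z * d) := by group
      rw [e1]
      refine J.1.mul_mem (hJ (i + 1) (by omega) h2 ⟨?_,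
        (B (i + 1)).1.mul_mem hz1 ((B (i + 1)).1.inv_mem hz)⟩) hj
      have e2 : z' * z⁻¹ = x'⁻¹ * x := by
        have : x' * z' = x * z := e'.trans e.symm
        calc z' * z⁻¹ = x'⁻¹ * (x' * z') * z⁻¹ := by group
          _ = x'⁻¹ * (x * z) * z⁻¹ := by rw [this]
          _ = _ := by group
      rw [e2]
      exact (A (i + 1)).1.mul_mem ((A (i + 1)).1.inv_mem hx1) hx
  obtain ⟨x, hx, z, hz, e, hj⟩ := key (n - 1) hn le_rfl
  have en : n - 1 + 1 = n := by omega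
  rw [en] at hx hz
  rw [← e, mul_assoc]
  exact mul_mem_sup hx ⟨hj, (B n).1.mul_mem hz hdn⟩

instance : Finite LL.G :=
  Finite.of_injective (fun g : LL.G => (g.v, g.w, g.s, g.t)) (by
    intro a b h
    simp only [Prod.mk.injEq] at h
    exact LL.G.ext h.1 h.2.1 h.2.2.1 h.2.2.2)

theorem main : ∃ (L : Type) (_ : Lattice L), Finite L ∧ (∀ n, 3 ≤ n → SatisfiesD L n) ∧
    ¬ IsLinear L :=
  ⟨(NL LL.G)ᵒᵈ, inferInstance, (inferInstance : Finite (NL LL.G)), fun n _ => dualD n,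
    fun ⟨_, f, hf, hp⟩ => LL.dual_not_linear f hf hp⟩

end Pool.Agent.H935Z.Lin
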