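import Mathlib

/-!
A group of order 512 and class two, with explicit normal subgroups.
-/

set_option autoImplicit false

namespace Pool.Agent.H935Z.ND

def bt : Nat := 17977029727750198753222093633471006167638471730367551268589811960053900369902853387334191463616771259235980603825670070408858237919183082592207716605696976503731649498504604600011768802663049810626304246155120013560585678807764003345285242405738510481094275768122847700620200768183537234274405691858793603551260636674965969110958799968544299882548642485674939442412937655581061823856640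

/-- The bilinear cocycle, read from a table. -/
def bil (u v : BitVec 4) : BitVec 5 := BitVec.ofNat 5 (bt >>> (5 * (16 * u.toNat + v.toNat)))

@[ext] structure H where
  v : BitVec 4
  w : BitVec 5
deriving DecidableEq

theorem cocycle : ∀ u v t : BitVec 4,
    bil u v ^^^ bil (u ^^^ v) t = bil v t ^^^ bil u (v ^^^ t) := by decide +kernel

theorem bil_zero_left : ∀ v : BitVec 4, bil 0 v = 0 := by decide +kernel
theorem bil_zero_right : ∀ v : BitVec 4, bil v 0 = 0 := by decide +kernel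

instance : Mul H := ⟨fun a b => ⟨a.v ^^^ b.v, a.w ^^^ b.w ^^^ bil a.v b.v⟩⟩
instance : One H := ⟨⟨0, 0⟩⟩
instance : Inv H := ⟨fun a => ⟨a.v, a.w ^^^ bil a.v a.v⟩⟩

theorem mul_v (a b : H) : (a * b).v = a.v ^^^ b.v := rfl
theorem mul_w (a b : H) : (a * b).w = a.w ^^^ b.w ^^^ bil a.v b.v := rfl
theorem one_v : (1 : H).v = 0 := rfl
theorem one_w : (1 : H).w = 0 := rfl
theorem inv_v (a : H) : (a⁻¹).v = a.v := rfl
theorem inv_w (a : H) : (a⁻¹).w = a.w ^^^ bil a.v a.v := rfl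

theorem xor_self' (a : BitVec 5) : a ^^^ a = 0 := BitVec.xor_self
theorem xor_cancel : ∀ a b : BitVec 5, a ^^^ b ^^^ a ^^^ b = 0 := by decide +kernel

instance : Group H := Group.ofLeftAxioms
  (fun a b c => by
    apply H.ext
    · simp only [mul_v, BitVec.xor_assoc]
    · simp only [mul_v, mul_w]
      have h := cocycle a.v b.v c.v
      calc a.w ^^^ b.w ^^^ bil a.v b.v ^^^ c.w ^^^ bil (a.v ^^^ b.v) c.v
          = (a.w ^^^ b.w ^^^ c.w) ^^^ (bil a.v b.v ^^^ bil (a.v ^^^ b.v) c.v) := by ac_rfl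
        _ = (a.w ^^^ b.w ^^^ c.w) ^^^ (bil b.v c.v ^^^ bil a.v (b.v ^^^ c.v)) := by rw [h]
        _ = _ := by ac_rfl)
  (fun a => by
    apply H.ext
    · simp [mul_v, one_v]
    · simp only [mul_w, one_v, one_w, bil_zero_left]
      simp)
  (fun a => by
    apply H.ext
    · simp [mul_v, inv_v, one_v]
    · simp only [mul_w, inv_w, inv_v, one_w]
      exact xor_cancel _ _)

/-- Data of a subgroup: a set of `v` values, a set of `w` values, a section. -/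
structure D where
  U : Nat
  W : Nat
  s : Nat

def D.sec (d : D) (v : BitVec 4) : BitVec 5 := BitVec.ofNat 5 (d.s >>> (5 * v.toNat))

def D.mem (d : D) (v : BitVec 4) (w : BitVec 5) : Bool :=
  d.U.testBit v.toNat && d.W.testBit (w ^^^ d.sec v).toNat

def D.Ok (d : D) : Prop :=
  d.mem 0 0 = true ∧
  (∀ a : BitVec 5, d.W.testBit a.toNat = true → ∀ b : BitVec 5, d.W.testBit b.toNat = true →
    d.W.testBit (a ^^^ b).toNat = true) ∧
  (∀ u : BitVec 4, d.U.testBit u.toNat = true → ∀ v : BitVec 4, d.U.testBit v.toNat = true →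
    d.U.testBit (u ^^^ v).toNat = true ∧
    d.W.testBit (d.sec u ^^^ d.sec v ^^^ bil u v ^^^ d.sec (u ^^^ v)).toNat = true) ∧
  (∀ u : BitVec 4, d.U.testBit u.toNat = true → d.W.testBit (bil u u).toNat = true ∧
    ∀ t : BitVec 4, d.W.testBit (bil t u ^^^ bil t t ^^^ bil (t ^^^ u) t).toNat = true)

instance (d : D) : Decidable d.Ok := by unfold D.Ok; infer_instance

theorem x5a : ∀ a b : BitVec 5, a = b ^^^ b ^^^ a := by decide +kernel

def D.sub (d : D) (h : d.Ok) : Subgroup H where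
  carrier := {g | d.mem g.v g.w = true}
  one_mem' := h.1
  mul_mem' := by
    intro a b ha hb
    simp only [Set.mem_ofPred_eq, D.mem, Bool.and_eq_true] at ha hb ⊢
    obtain ⟨h1, h2⟩ := h.2.2.1 _ ha.1 _ hb.1
    refine ⟨h1, ?_⟩
    have h3 := h.2.1 _ (h.2.1 _ ha.2 _ hb.2) _ h2
    convert h3 using 2
    simp only [mul_v, mul_w]
    rw [x5a (a.w ^^^ b.w ^^^ bil a.v b.v ^^^ d.sec (a.v ^^^ b.v)) (d.sec a.v ^^^ d.sec b.v)]
    ac_rfl
  inv_mem' := by
    intro a ha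
    simp only [Set.mem_ofPred_eq, D.mem, Bool.and_eq_true] at ha ⊢
    refine ⟨ha.1, ?_⟩
    have h3 := h.2.1 _ ha.2 _ (h.2.2.2 _ ha.1).1
    convert h3 using 2
    simp only [inv_v, inv_w]
    ac_rfl

theorem D.mem_sub (d : D) (h : d.Ok) (g : H) : g ∈ d.sub h ↔ d.mem g.v g.w = true := Iff.rfl

theorem x4a : ∀ a b : BitVec 4, a ^^^ b ^^^ a = b := by decide +kernel

theorem D.normal (d : D) (h : d.Ok) : (d.sub h).Normal := ⟨by
  intro a ha g
  rw [D.mem_sub] at ha ⊢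
  simp only [D.mem, Bool.and_eq_true, mul_v, mul_w, inv_v, inv_w, x4a] at ha ⊢
  refine ⟨ha.1, ?_⟩
  have h3 := h.2.1 _ ha.2 _ ((h.2.2.2 _ ha.1).2 g.v)
  convert h3 using 2
  rw [x5a (a.w ^^^ d.sec a.v ^^^ (bil g.v a.v ^^^ bil g.v g.v ^^^ bil (g.v ^^^ a.v) g.v)) g.w]
  ac_rfl⟩

theorem D.le (d e : D) (hd : d.Ok) (he : e.Ok)
    (h : ∀ v w, d.mem v w = true → e.mem v w = true) : d.sub hd ≤ e.sub he :=
  fun _ hg => h _ _ hg

theorem D.inf_le (d d' e : D) (hd : d.Ok) (hd' : d'.Ok) (he : e.Ok)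
    (h : ∀ v w, d.mem v w = true → d'.mem v w = true → e.mem v w = true) :
    d.sub hd ⊓ d'.sub hd' ≤ e.sub he :=
  fun _ hg => h _ _ hg.1 hg.2

def dX1 : D := ⟨33, 2223251745, 100663296⟩
def dX2 : D := ⟨9, 2566914201, 32768⟩
def dX3 : D := ⟨1025, 5570645, 9007199254740992⟩
def dX4 : D := ⟨8193, 304157217, 73786976294838206464⟩
def dY1 : D := ⟨17, 286331153, 3145728⟩
def dY2 : D := ⟨5, 10813605, 0⟩
def dY3 : D := ⟨2049, 2516582505, 36028797018963968⟩
def dY4 : D := ⟨4097, 2286166545, 3458764513820540928⟩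
def dJ12 : D := ⟨165, 2779096485, 34393292800⟩
def dJ13 : D := ⟨18465, 2526439785, 1180627649514430267392⟩
def dJ14 : D := ⟨4641, 3435934515, 2305843009280802816⟩
def dJ21 : D := ⟨153, 2576980377, 34359771136⟩
def dJ23 : D := ⟨2313, 4278190335, 0⟩
def dJ24 : D := ⟨36873, 2573624985, 37778931862957161742336⟩
def dJ31 : D := ⟨17425, 1431655765, 1180591620717412352000⟩
def dJ32 : D := ⟨1285, 16711935, 9015995347763200⟩
def dJ34 : D := ⟨5185, 2857740885, 1154047404513689600⟩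
def dJ41 : D := ⟨8721, 858993459, 73786976294840303616⟩
def dJ42 : D := ⟨40965, 1520786085, 0⟩
def dJ43 : D := ⟨10305, 2523502185, 36929516945511809024⟩
def dS1 : D := ⟨195, 3284386755, 2147483712⟩
def dS2 : D := ⟨49155, 1010615235, 75557863725914323419200⟩
def dS3 : D := ⟨771, 65535, 17592186044928⟩
def dR : D := ⟨23205, 4294967295, 0⟩
def dC : D := ⟨3, 50115, 0⟩

theorem oX1 : dX1.Ok := by decide +kernel
theorem oX2 : dX2.Ok := by decide +kernel
theorem oX3 : dX3.Ok := by decide +kernel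
theorem oX4 : dX4.Ok := by decide +kernel
theorem oY1 : dY1.Ok := by decide +kernel
theorem oY2 : dY2.Ok := by decide +kernel
theorem oY3 : dY3.Ok := by decide +kernel
theorem oY4 : dY4.Ok := by decide +kernel
theorem oJ12 : dJ12.Ok := by decide +kernel
theorem oJ13 : dJ13.Ok := by decide +kernel
theorem oJ14 : dJ14.Ok := by decide +kernel
theorem oJ21 : dJ21.Ok := by decide +kernel
theorem oJ23 : dJ23.Ok := by decide +kernel
theorem oJ24 : dJ24.Ok := by decide +kernel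
theorem oJ31 : dJ31.Ok := by decide +kernel
theorem oJ32 : dJ32.Ok := by decide +kernel
theorem oJ34 : dJ34.Ok := by decide +kernel
theorem oJ41 : dJ41.Ok := by decide +kernel
theorem oJ42 : dJ42.Ok := by decide +kernel
theorem oJ43 : dJ43.Ok := by decide +kernel
theorem oS1 : dS1.Ok := by decide +kernel
theorem oS2 : dS2.Ok := by decide +kernel
theorem oS3 : dS3.Ok := by decide +kernel
theorem oR : dR.Ok := by decide +kernel
theorem oC : dC.Ok := by decide +kernel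

def X1 := dX1.sub oX1
def X2 := dX2.sub oX2
def X3 := dX3.sub oX3
def X4 := dX4.sub oX4
def Y1 := dY1.sub oY1
def Y2 := dY2.sub oY2
def Y3 := dY3.sub oY3
def Y4 := dY4.sub oY4

instance : X1.Normal := D.normal _ _
instance : X2.Normal := D.normal _ _
instance : X3.Normal := D.normal _ _
instance : X4.Normal := D.normal _ _
instance : Y1.Normal := D.normal _ _
instance : Y2.Normal := D.normal _ _
instance : Y3.Normal := D.normal _ _
instance : Y4.Normal := D.normal _ _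

/-- The witness. -/
def a0 : H := ⟨1, 0⟩

/-- Its normal closure. -/
def C : Subgroup H := Subgroup.normalClosure {a0}

instance : C.Normal := Subgroup.normalClosure_normal

theorem a0_mem : a0 ∈ C := Subgroup.subset_normalClosure rfl

theorem C_le (X Y : Subgroup H) [X.Normal] [Y.Normal] (x y : H) (hx : x ∈ X) (hy : y ∈ Y)
    (h : a0 = x * y) : C ≤ X ⊔ Y :=
  Subgroup.normalClosure_le_normal (by
    rintro _ rfl
    rw [h]
    exact Subgroup.mul_mem_sup hx hy)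

theorem C_le1 : C ≤ X1 ⊔ Y1 := C_le _ _ ⟨5, 11⟩ ⟨4, 15⟩
  ((D.mem_sub _ _ _).2 (by decide +kernel)) ((D.mem_sub _ _ _).2 (by decide +kernel))
  (by decide +kernel)
theorem C_le2 : C ≤ X2 ⊔ Y2 := C_le _ _ ⟨3, 5⟩ ⟨2, 7⟩
  ((D.mem_sub _ _ _).2 (by decide +kernel)) ((D.mem_sub _ _ _).2 (by decide +kernel))
  (by decide +kernel)
theorem C_le3 : C ≤ X3 ⊔ Y3 := C_le _ _ ⟨10, 26⟩ ⟨11, 24⟩
  ((D.mem_sub _ _ _).2 (by decide +kernel)) ((D.mem_sub _ _ _).2 (by decide +kernel))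
  (by decide +kernel)
theorem C_le4 : C ≤ X4 ⊔ Y4 := C_le _ _ ⟨13, 7⟩ ⟨12, 3⟩
  ((D.mem_sub _ _ _).2 (by decide +kernel)) ((D.mem_sub _ _ _).2 (by decide +kernel))
  (by decide +kernel)

theorem C_comm : ∀ a ∈ C, ∀ b ∈ C, a * b = b * a := by
  have hle : C ≤ dC.sub oC := by
    have := D.normal dC oC
    exact Subgroup.normalClosure_le_normal (by
      rintro _ rfl
      exact (D.mem_sub _ _ _).2 (by decide +kernel))
  have h : ∀ u v : BitVec 4, dC.U.testBit u.toNat = true → dC.U.testBit v.toNat = true →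
      bil u v = bil v u := by decide +kernel
  intro a ha b hb
  have ha' := (D.mem_sub _ _ _).1 (hle ha)
  have hb' := (D.mem_sub _ _ _).1 (hle hb)
  simp only [D.mem, Bool.and_eq_true] at ha' hb'
  apply H.ext
  · simp only [mul_v, BitVec.xor_comm]
  · simp only [mul_w, h _ _ ha'.1 hb'.1]
    ac_rfl

theorem a0_not_mem : a0 ∉ dR.sub oR := by
  rw [D.mem_sub]
  decide +kernel

theorem sup_le_J (x y j : D) (hx : x.Ok) (hy : y.Ok) (hj : j.Ok)
    (h : ∀ v w, (x.mem v w = true → j.mem v w = true) ∧ (y.mem v w = true → j.mem v w = true)) :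
    x.sub hx ⊔ y.sub hy ≤ j.sub hj :=
  sup_le (D.le _ _ _ _ fun v w => (h v w).1) (D.le _ _ _ _ fun v w => (h v w).2)

/-- The right-hand side of the identity is contained in the maximal subgroup `dR`. -/
theorem rhs_le :
    (((X1 ⊔ Y2) ⊓ (X2 ⊔ Y1) ⊔ (X3 ⊔ Y4) ⊓ (X4 ⊔ Y3)) ⊓
      ((X1 ⊔ Y3) ⊓ (X3 ⊔ Y1) ⊔ (X2 ⊔ Y4) ⊓ (X4 ⊔ Y2)) ⊓
      ((X1 ⊔ Y4) ⊓ (X4 ⊔ Y1) ⊔ (X2 ⊔ Y3) ⊓ (X3 ⊔ Y2))) ⊔ X1 ⊔ Y2 ⊔ Y3 ⊔ Y4 ≤ dR.sub oR := by
  have h12 : X1 ⊔ Y2 ≤ dJ12.sub oJ12 := sup_le_J _ _ _ _ _ _ (by decide +kernel)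
  have h13 : X1 ⊔ Y3 ≤ dJ13.sub oJ13 := sup_le_J _ _ _ _ _ _ (by decide +kernel)
  have h14 : X1 ⊔ Y4 ≤ dJ14.sub oJ14 := sup_le_J _ _ _ _ _ _ (by decide +kernel)
  have h21 : X2 ⊔ Y1 ≤ dJ21.sub oJ21 := sup_le_J _ _ _ _ _ _ (by decide +kernel)
  have h23 : X2 ⊔ Y3 ≤ dJ23.sub oJ23 := sup_le_J _ _ _ _ _ _ (by decide +kernel)
  have h24 : X2 ⊔ Y4 ≤ dJ24.sub oJ24 := sup_le_J _ _ _ _ _ _ (by decide +kernel)
  have h31 : X3 ⊔ Y1 ≤ dJ31.sub oJ31 := sup_le_J _ _ _ _ _ _ (by decide +kernel)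
  have h32 : X3 ⊔ Y2 ≤ dJ32.sub oJ32 := sup_le_J _ _ _ _ _ _ (by decide +kernel)
  have h34 : X3 ⊔ Y4 ≤ dJ34.sub oJ34 := sup_le_J _ _ _ _ _ _ (by decide +kernel)
  have h41 : X4 ⊔ Y1 ≤ dJ41.sub oJ41 := sup_le_J _ _ _ _ _ _ (by decide +kernel)
  have h42 : X4 ⊔ Y2 ≤ dJ42.sub oJ42 := sup_le_J _ _ _ _ _ _ (by decide +kernel)
  have h43 : X4 ⊔ Y3 ≤ dJ43.sub oJ43 := sup_le_J _ _ _ _ _ _ (by decide +kernel)
  have s1 : (X1 ⊔ Y2) ⊓ (X2 ⊔ Y1) ⊔ (X3 ⊔ Y4) ⊓ (X4 ⊔ Y3) ≤ dS1.sub oS1 :=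
    sup_le ((inf_le_inf h12 h21).trans (D.inf_le _ _ _ _ _ _ (by decide +kernel)))
      ((inf_le_inf h34 h43).trans (D.inf_le _ _ _ _ _ _ (by decide +kernel)))
  have s2 : (X1 ⊔ Y3) ⊓ (X3 ⊔ Y1) ⊔ (X2 ⊔ Y4) ⊓ (X4 ⊔ Y2) ≤ dS2.sub oS2 :=
    sup_le ((inf_le_inf h13 h31).trans (D.inf_le _ _ _ _ _ _ (by decide +kernel)))
      ((inf_le_inf h24 h42).trans (D.inf_le _ _ _ _ _ _ (by decide +kernel)))
  have s3 : (X1 ⊔ Y4) ⊓ (X4 ⊔ Y1) ⊔ (X2 ⊔ Y3) ⊓ (X3 ⊔ Y2) ≤ dS3.sub oS3 :=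
    sup_le ((inf_le_inf h14 h41).trans (D.inf_le _ _ _ _ _ _ (by decide +kernel)))
      ((inf_le_inf h23 h32).trans (D.inf_le _ _ _ _ _ _ (by decide +kernel)))
  refine sup_le (sup_le (sup_le (sup_le ?_ ?_) ?_) ?_) ?_
  · refine (inf_le_inf (inf_le_inf s1 s2) s3).trans ?_
    have h : ∀ v w, dS1.mem v w = true → dS2.mem v w = true → dS3.mem v w = true →
        dR.mem v w = true := by decide +kernel
    exact fun _ hg => h _ _ hg.1.1 hg.1.2 hg.2
  · exact D.le _ _ _ _ (by decide +kernel)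
  · exact D.le _ _ _ _ (by decide +kernel)
  · exact D.le _ _ _ _ (by decide +kernel)
  · exact D.le _ _ _ _ (by decide +kernel)

end Pool.Agent.H935Z.ND
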